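import Pool.Agent.Work.MP_9e9244_an.ParCore

open MeasureTheory Set
open scoped ENNReal ComplexConjugate

namespace Pool.Agent.Work.MP_9e9244_an

theorem intervalIntegrable_mul' {g : ℝ → ℂ}
    (hg : MemLp g 2 (volume.restrict (Ioc (0:ℝ) 1))) {G : ℝ → ℂ} (hG : Continuous G) :
    IntervalIntegrable (fun x => g x * G x) volume 0 1 := by
  have h1 : IntervalIntegrable g volume 0 1 := by
    rw [intervalIntegrable_iff_integrableOn_Ioc_of_le zero_le_one]
    exact hg.integrable one_le_two
  exact h1.mul_continuousOn hG.continuousOn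

theorem memLp_mul_bdd {g : ℝ → ℂ} (hg : MemLp g 2 (volume.restrict (Ioc (0:ℝ) 1)))
    {G : ℝ → ℂ} (hG : Continuous G) (hb : ∀ x, ‖G x‖ = 1) :
    MemLp (fun x => G x * g x) 2 (volume.restrict (Ioc (0:ℝ) 1)) := by
  refine hg.of_le (hG.aestronglyMeasurable.mul hg.aestronglyMeasurable) ?_
  exact Filter.Eventually.of_forall fun x => by rw [norm_mul, hb, one_mul]

theorem memLp_reflect {g : ℝ → ℂ} (hg : MemLp g 2 (volume.restrict (Ioc (0:ℝ) 1))) :
    MemLp (fun x => g (1 - x)) 2 (volume.restrict (Ioc (0:ℝ) 1)) := by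
  have h1 := (Measure.measurePreserving_sub_left volume (1:ℝ)).restrict_preimage
    (s := Ioc (0:ℝ) 1) measurableSet_Ioc
  have h2 : (fun x => 1 - x) ⁻¹' Ioc (0:ℝ) 1 = Ico (0:ℝ) 1 := by
    ext x
    simp only [mem_preimage, mem_Ioc, mem_Ico]
    constructor
    · rintro ⟨h, h'⟩
      exact ⟨by linarith, by linarith⟩
    · rintro ⟨h, h'⟩
      exact ⟨by linarith, by linarith⟩
  rw [h2, Measure.restrict_congr_set (Ico_ae_eq_Ioc (μ := volume) (a := (0:ℝ)) (b := 1))] at h1
  exact hg.comp_measurePreserving h1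

theorem par_complete (f : Fin 4 → ℝ → ℂ)
    (hf : ∀ i, MemLp (f i) 2 (volume.restrict (Ioc (0:ℝ) 1)))
    (horth : ∀ j : Fin 4 × ℤ, ∑ i, ∫ t in (0:ℝ)..1, f i t * conj (parE j i t) = 0) :
    ∀ i, ∀ᵐ t ∂(volume.restrict (Ioc (0:ℝ) 1)), f i t = 0 := by
  have hw : Continuous w2 := continuous_w2
  have hcw : Continuous fun x => conj (w2 x) := Complex.continuous_conj.comp hw
  have hncw : ∀ x, ‖conj (w2 x)‖ = 1 := fun x => by rw [Complex.norm_conj]; exact norm_w2 x
  have hce : ∀ k : ℤ, Continuous fun x : ℝ => conj (e ((k : ℝ) / 1 * x)) := by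
    intro k
    exact Complex.continuous_conj.comp (by fun_prop)
  have hcE : ∀ j i, Continuous fun x : ℝ => conj (parE j i x) := by
    intro j i
    refine Complex.continuous_conj.comp ?_
    unfold parE
    refine continuous_e.comp ?_
    fin_cases i
    · exact continuous_const.mul continuous_id
    · exact continuous_const.add (continuous_const.mul continuous_id)
    · exact continuous_const.mul continuous_id
    · exact continuous_const.add (continuous_const.mul continuous_id)
  have hint : ∀ j i, IntervalIntegrable (fun t => f i t * conj (parE j i t)) volume 0 1 :=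
    fun j i => intervalIntegrable_mul' (hf i) (hcE j i)
  -- first family
  have F0 : ∀ᵐ t ∂(volume.restrict (Ioc (0:ℝ) 1)), f 0 t + f 1 t + f 2 t + f 3 t = 0 := by
    refine ae_zero_of_coeff 1 one_pos _ ((((hf 0).add (hf 1)).add (hf 2)).add (hf 3)) ?_
    intro k
    have h := horth (0, k)
    rw [Fin.sum_univ_four, ← intervalIntegral.integral_add (hint _ _) (hint _ _),
      ← intervalIntegral.integral_add ((hint _ _).add (hint _ _)) (hint _ _),
      ← intervalIntegral.integral_add (((hint _ _).add (hint _ _)).add (hint _ _))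
        (hint _ _)] at h
    rw [← h]
    refine intervalIntegral.integral_congr fun t _ => ?_
    obtain ⟨h0, h1, h2, h3⟩ := parE_zero k t
    simp only [h0, h1, h2, h3, div_one]
    ring
  have F1 : ∀ᵐ t ∂(volume.restrict (Ioc (0:ℝ) 1)),
      f 0 t - f 1 t + conj (w2 t) * (f 2 t + f 3 t) = 0 := by
    refine ae_zero_of_coeff 1 one_pos _
      (((hf 0).sub (hf 1)).add (memLp_mul_bdd ((hf 2).add (hf 3)) hcw hncw)) ?_
    intro k
    have h := horth (1, k)
    rw [Fin.sum_univ_four, ← intervalIntegral.integral_add (hint _ _) (hint _ _),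
      ← intervalIntegral.integral_add ((hint _ _).add (hint _ _)) (hint _ _),
      ← intervalIntegral.integral_add (((hint _ _).add (hint _ _)).add (hint _ _))
        (hint _ _)] at h
    rw [← h]
    refine intervalIntegral.integral_congr fun t _ => ?_
    obtain ⟨h0, h1, h2, h3⟩ := parE_one k t
    simp only [h0, h1, h2, h3, div_one, map_mul, map_neg]
    ring
  have F2 : ∀ᵐ t ∂(volume.restrict (Ioc (0:ℝ) 1)),
      conj (w2 t) * (f 0 t - f 1 t) - w2 t * (f 2 (1 - t) - f 3 (1 - t)) = 0 := by
    refine ae_zero_of_coeff 1 one_pos _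
      ((memLp_mul_bdd ((hf 0).sub (hf 1)) hcw hncw).sub
        (memLp_mul_bdd (memLp_reflect ((hf 2).sub (hf 3))) hw norm_w2)) ?_
    intro k
    have h := horth (2, k)
    rw [Fin.sum_univ_four, ← intervalIntegral.integral_add (hint _ _) (hint _ _), add_assoc,
      ← intervalIntegral.integral_add (hint _ _) (hint _ _)] at h
    have h' : ∫ t in (0:ℝ)..1, (f 2 t * conj (parE (2, k) 2 t) + f 3 t * conj (parE (2, k) 3 t))
        = ∫ t in (0:ℝ)..1, (f 2 (1 - t) * conj (parE (2, k) 2 (1 - t))
          + f 3 (1 - t) * conj (parE (2, k) 3 (1 - t))) := by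
      rw [intervalIntegral.integral_comp_sub_left (fun t => f 2 t * conj (parE (2, k) 2 t)
        + f 3 t * conj (parE (2, k) 3 t)) 1]
      norm_num
    have hi1 : IntervalIntegrable (fun t => f 2 (1 - t) * conj (parE (2, k) 2 (1 - t)))
        volume 0 1 := intervalIntegrable_mul' (memLp_reflect (hf 2))
          ((hcE (2, k) 2).comp (continuous_const.sub continuous_id))
    have hi2 : IntervalIntegrable (fun t => f 3 (1 - t) * conj (parE (2, k) 3 (1 - t)))
        volume 0 1 := intervalIntegrable_mul' (memLp_reflect (hf 3))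
          ((hcE (2, k) 3).comp (continuous_const.sub continuous_id))
    rw [h', ← intervalIntegral.integral_add ((hint _ _).add (hint _ _)) (hi1.add hi2)] at h
    rw [← h]
    refine intervalIntegral.integral_congr fun t _ => ?_
    obtain ⟨h0, h1, -, -⟩ := parE_two k t
    obtain ⟨-, -, h2, h3⟩ := parE_two k (1 - t)
    simp only [h0, h1, h2, h3, div_one, map_mul, map_neg,
      w2_one_sub, Complex.conj_conj, show 1 - (1 - t) = t by ring]
    ring
  have F3 : ∀ᵐ t ∂(volume.restrict (Ioc (0:ℝ) 1)),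
      conj (w2 t) * (f 0 t + f 1 t) + (w2 t) ^ 2 * (f 2 (1 - t) - f 3 (1 - t)) = 0 := by
    refine ae_zero_of_coeff 1 one_pos _
      ((memLp_mul_bdd ((hf 0).add (hf 1)) hcw hncw).add
        (memLp_mul_bdd (memLp_reflect ((hf 2).sub (hf 3))) (hw.pow 2) (fun x => by
          rw [norm_pow, norm_w2, one_pow]))) ?_
    intro k
    have h := horth (3, k)
    rw [Fin.sum_univ_four, ← intervalIntegral.integral_add (hint _ _) (hint _ _), add_assoc,
      ← intervalIntegral.integral_add (hint _ _) (hint _ _)] at h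
    have h' : ∫ t in (0:ℝ)..1, (f 2 t * conj (parE (3, k) 2 t) + f 3 t * conj (parE (3, k) 3 t))
        = ∫ t in (0:ℝ)..1, (f 2 (1 - t) * conj (parE (3, k) 2 (1 - t))
          + f 3 (1 - t) * conj (parE (3, k) 3 (1 - t))) := by
      rw [intervalIntegral.integral_comp_sub_left (fun t => f 2 t * conj (parE (3, k) 2 t)
        + f 3 t * conj (parE (3, k) 3 t)) 1]
      norm_num
    have hi1 : IntervalIntegrable (fun t => f 2 (1 - t) * conj (parE (3, k) 2 (1 - t)))
        volume 0 1 := intervalIntegrable_mul' (memLp_reflect (hf 2))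
          ((hcE (3, k) 2).comp (continuous_const.sub continuous_id))
    have hi2 : IntervalIntegrable (fun t => f 3 (1 - t) * conj (parE (3, k) 3 (1 - t)))
        volume 0 1 := intervalIntegrable_mul' (memLp_reflect (hf 3))
          ((hcE (3, k) 3).comp (continuous_const.sub continuous_id))
    rw [h', ← intervalIntegral.integral_add ((hint _ _).add (hint _ _)) (hi1.add hi2)] at h
    rw [← h]
    refine intervalIntegral.integral_congr fun t _ => ?_
    obtain ⟨h0, h1, -, -⟩ := parE_three k t
    obtain ⟨-, -, h2, h3⟩ := parE_three k (1 - t)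
    simp only [h0, h1, h2, h3, div_one, map_mul, map_neg, map_pow,
      w2_one_sub, Complex.conj_conj, show 1 - (1 - t) = t by ring]
    ring
  -- consequences
  have hall : ∀ᵐ t ∂(volume.restrict (Ioc (0:ℝ) 1)),
      f 0 t + f 1 t = 0 ∧ f 0 t - f 1 t = 0 ∧ f 2 t + f 3 t = 0 ∧
        f 2 (1 - t) - f 3 (1 - t) = 0 := by
    filter_upwards [F0, F1, F2, F3] with t t0 t1 t2 t3
    have hww := w2_mul_conj t
    have hQ : f 0 t - f 1 t = 0 := by
      linear_combination (1 / 2) * t1 - (1 / 2) * conj (w2 t) * t0 + (1 / 2) * w2 t * t2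
        + (1 / 2) * t3 - (1 / 2) * (f 0 t - f 1 t) * hww
    have hV : f 2 (1 - t) - f 3 (1 - t) = 0 := by
      linear_combination -(conj (w2 t)) * t2 + (conj (w2 t)) ^ 2 * hQ
        - (f 2 (1 - t) - f 3 (1 - t)) * hww
    have hP : f 0 t + f 1 t = 0 := by
      linear_combination w2 t * t3 - (w2 t) ^ 3 * hV - (f 0 t + f 1 t) * hww
    refine ⟨hP, hQ, ?_, hV⟩
    linear_combination t0 - hP
  have hD : ∀ᵐ t ∂(volume.restrict (Ioc (0:ℝ) 1)), f 2 t - f 3 t = 0 := by
    refine ae_zero_of_integral_sq 1 one_pos _ ((hf 2).sub (hf 3)) ?_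
    rw [← integral_reflect]
    rw [intervalIntegral.integral_of_le zero_le_one]
    refine integral_eq_zero_of_ae ?_
    filter_upwards [hall] with t ht
    simp only [ht.2.2.2, norm_zero, Pi.zero_apply]
    norm_num
  intro i
  filter_upwards [hall, hD] with t ht hd
  obtain ⟨a1, a2, a3, -⟩ := ht
  fin_cases i
  · change f 0 t = 0
    linear_combination (1 / 2) * a1 + (1 / 2) * a2
  · change f 1 t = 0
    linear_combination (1 / 2) * a1 - (1 / 2) * a2
  · change f 2 t = 0
    linear_combination (1 / 2) * a3 + (1 / 2) * hd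
  · change f 3 t = 0
    linear_combination (1 / 2) * a3 - (1 / 2) * hd

end Pool.Agent.Work.MP_9e9244_an
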