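import Pool.Agent.Work.MP_9e9244_an.Geometry

open MeasureTheory Set
open scoped ENNReal ComplexConjugate

namespace Pool.Agent.Work.MP_9e9244_an

/-- The parallelogram with vertex `A` and edge vectors `u`, `v`. -/
def parallelogram (A u v : Plane) : Set Plane :=
  {x | ∃ s ∈ Icc (0:ℝ) 1, ∃ t ∈ Icc (0:ℝ) 1, x = A + s • u + t • v}

/-- The linear map `(s, t) ↦ s u + t v`. -/
noncomputable def linUV (u v : Plane) : ℝ × ℝ →ₗ[ℝ] Plane :=
  (LinearMap.toSpanSingleton ℝ Plane u).coprod (LinearMap.toSpanSingleton ℝ Plane v)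

theorem linUV_apply (u v : Plane) (p : ℝ × ℝ) : linUV u v p = p.1 • u + p.2 • v := by
  simp [linUV]

theorem linUV_injective {u v : Plane} (h : LinearIndependent ℝ ![u, v]) :
    Function.Injective (linUV u v) := by
  rw [← LinearMap.ker_eq_bot, LinearMap.ker_eq_bot']
  rintro ⟨s, t⟩ hst
  rw [linUV_apply] at hst
  rw [LinearIndependent.pair_iff] at h
  obtain ⟨h1, h2⟩ := h s t hst
  simp [h1, h2]

/-- The corresponding continuous linear equivalence. -/
noncomputable def equivUV {u v : Plane} (h : LinearIndependent ℝ ![u, v]) :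
    (ℝ × ℝ) ≃L[ℝ] Plane :=
  (LinearEquiv.ofInjectiveOfFinrankEq (linUV u v) (linUV_injective h)
    (by simp)).toContinuousLinearEquiv

theorem equivUV_apply {u v : Plane} (h : LinearIndependent ℝ ![u, v]) (p : ℝ × ℝ) :
    equivUV h p = p.1 • u + p.2 • v := linUV_apply u v p

/-- The affine homeomorphism `(s, t) ↦ A + s u + t v`. -/
noncomputable def homUV (A : Plane) {u v : Plane} (h : LinearIndependent ℝ ![u, v]) :
    (ℝ × ℝ) ≃ₜ Plane :=
  (equivUV h).toHomeomorph.trans (Homeomorph.addLeft A)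

theorem homUV_apply (A : Plane) {u v : Plane} (h : LinearIndependent ℝ ![u, v]) (p : ℝ × ℝ) :
    homUV A h p = A + (p.1 • u + p.2 • v) := by
  simp [homUV, equivUV_apply]

theorem parallelogram_eq (A : Plane) {u v : Plane} (h : LinearIndependent ℝ ![u, v]) :
    parallelogram A u v = homUV A h '' (Icc (0:ℝ) 1 ×ˢ Icc (0:ℝ) 1) := by
  ext x
  simp only [parallelogram, mem_image, mem_prod, Prod.exists, homUV_apply]
  constructor
  · rintro ⟨s, hs, t, ht, rfl⟩
    exact ⟨s, t, ⟨hs, ht⟩, by abel⟩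
  · rintro ⟨s, t, ⟨hs, ht⟩, rfl⟩
    exact ⟨s, hs, t, ht, by abel⟩

/-- Initial points of the four edges. -/
def parA (A u v : Plane) : Fin 4 → Plane := ![A, A + v, A, A + u]

/-- Final points of the four edges. -/
def parB (A u v : Plane) : Fin 4 → Plane := ![A + u, A + v + u, A + v, A + u + v]

/-- The four edges of the unit square. -/
def sqEdge : Fin 4 → Set (ℝ × ℝ) :=
  ![Icc (0:ℝ) 1 ×ˢ {0}, Icc (0:ℝ) 1 ×ˢ {1}, {0} ×ˢ Icc (0:ℝ) 1, {1} ×ˢ Icc (0:ℝ) 1]

theorem segment_eq_sqEdge (A : Plane) {u v : Plane} (h : LinearIndependent ℝ ![u, v])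
    (i : Fin 4) : segment ℝ (parA A u v i) (parB A u v i) = homUV A h '' sqEdge i := by
  rw [segment_eq_image_arc]
  ext x
  simp only [mem_image]
  constructor
  · rintro ⟨t, ht, rfl⟩
    fin_cases i
    · exact ⟨(t, 0), ⟨ht, rfl⟩, by simp [homUV_apply, arc, parA, parB]⟩
    · exact ⟨(t, 1), ⟨ht, rfl⟩, by simp [homUV_apply, arc, parA, parB]; abel⟩
    · exact ⟨(0, t), ⟨rfl, ht⟩, by simp [homUV_apply, arc, parA, parB]⟩
    · exact ⟨(1, t), ⟨rfl, ht⟩, by simp [homUV_apply, arc, parA, parB]; abel⟩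
  · rintro ⟨⟨a, b⟩, hp, rfl⟩
    fin_cases i
    · obtain ⟨h1, h2⟩ := hp
      simp only [mem_singleton_iff] at h2
      exact ⟨a, h1, by simp [homUV_apply, arc, parA, parB, h2]⟩
    · obtain ⟨h1, h2⟩ := hp
      simp only [mem_singleton_iff] at h2
      exact ⟨a, h1, by simp [homUV_apply, arc, parA, parB, h2]; abel⟩
    · obtain ⟨h1, h2⟩ := hp
      simp only [mem_singleton_iff] at h1
      exact ⟨b, h2, by simp [homUV_apply, arc, parA, parB, h1]⟩
    · obtain ⟨h1, h2⟩ := hp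
      simp only [mem_singleton_iff] at h1
      exact ⟨b, h2, by simp [homUV_apply, arc, parA, parB, h1]; abel⟩

theorem parallelogram_frontier (A : Plane) {u v : Plane} (h : LinearIndependent ℝ ![u, v]) :
    frontier (parallelogram A u v) =
      ⋃ i : Fin 4, segment ℝ (parA A u v i) (parB A u v i) := by
  simp only [segment_eq_sqEdge A h, ← image_iUnion]
  rw [parallelogram_eq A h, ← Homeomorph.image_frontier, frontier_prod_eq,
    frontier_Icc zero_le_one, closure_Icc]
  congr 1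
  ext ⟨a, b⟩
  simp only [mem_union, mem_prod, mem_iUnion, mem_insert_iff, mem_singleton_iff]
  constructor
  · rintro (⟨h1, h2 | h2⟩ | ⟨h1 | h1, h2⟩)
    · exact ⟨0, h1, h2⟩
    · exact ⟨1, h1, h2⟩
    · exact ⟨2, h1, h2⟩
    · exact ⟨3, h1, h2⟩
  · rintro ⟨i, hi⟩
    fin_cases i
    · exact Or.inl ⟨hi.1, Or.inl hi.2⟩
    · exact Or.inl ⟨hi.1, Or.inr hi.2⟩
    · exact Or.inr ⟨Or.inl hi.1, hi.2⟩
    · exact Or.inr ⟨Or.inr hi.1, hi.2⟩

theorem sqEdge_inter (i j : Fin 4) (hij : i ≠ j) : (sqEdge i ∩ sqEdge j).Subsingleton := by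
  rintro ⟨a, b⟩ ⟨h1, h2⟩ ⟨c, d⟩ ⟨h3, h4⟩
  fin_cases i <;> fin_cases j <;>
    simp [sqEdge] at hij h1 h2 h3 h4 ⊢ <;>
    first
      | (exfalso; linarith)
      | (constructor <;> linarith)

theorem parallelogram_inter (A : Plane) {u v : Plane} (h : LinearIndependent ℝ ![u, v])
    (i j : Fin 4) (hij : i ≠ j) :
    (segment ℝ (parA A u v i) (parB A u v i) ∩
      segment ℝ (parA A u v j) (parB A u v j)).Subsingleton := by
  rw [segment_eq_sqEdge A h, segment_eq_sqEdge A h, ← image_inter (homUV A h).injective]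
  exact (sqEdge_inter i j hij).image _

theorem parA_ne_parB (A : Plane) {u v : Plane} (h : LinearIndependent ℝ ![u, v]) (i : Fin 4) :
    parA A u v i ≠ parB A u v i := by
  have hu : u ≠ 0 := h.ne_zero 0
  have hv : v ≠ 0 := h.ne_zero 1
  fin_cases i <;> simp [parA, parB, hu, hv]

/-- A vector with prescribed inner products with `u` and `v`. -/
theorem exists_vector_par {u v : Plane} (h : LinearIndependent ℝ ![u, v]) (a b : ℝ) :
    ∃ l : Plane, inner ℝ l u = a ∧ inner ℝ l v = b := by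
  let L : Plane →L[ℝ] ℝ :=
    (a • ContinuousLinearMap.fst ℝ ℝ ℝ + b • ContinuousLinearMap.snd ℝ ℝ ℝ).comp
      ((equivUV h).symm : Plane →L[ℝ] ℝ × ℝ)
  refine ⟨(InnerProductSpace.toDual ℝ Plane).symm L, ?_, ?_⟩
  · rw [InnerProductSpace.toDual_symm_apply]
    have h1 : (equivUV h).symm u = (1, 0) := by
      rw [ContinuousLinearEquiv.symm_apply_eq, equivUV_apply]
      simp
    simp [L, h1]
  · rw [InnerProductSpace.toDual_symm_apply]
    have h1 : (equivUV h).symm v = (0, 1) := by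
      rw [ContinuousLinearEquiv.symm_apply_eq, equivUV_apply]
      simp
    simp [L, h1]

end Pool.Agent.Work.MP_9e9244_an
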