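import Pool.Agent.Work.MP_9e9244_an.TriBounds

open MeasureTheory Set
open scoped ENNReal ComplexConjugate

namespace Pool.Agent.Work.MP_9e9244_an

/-- Glue three functions on the unit interval to a function on `(0, 3]`. -/
noncomputable def glue (g0 g1 g2 : ℝ → ℂ) (y : ℝ) : ℂ :=
  if y ≤ 1 then g0 y else if y ≤ 2 then g1 (y - 1) else g2 (y - 2)

theorem glue_one {g0 g1 g2 : ℝ → ℂ} {y : ℝ} (h : y ∈ Ioc (0:ℝ) 1) : glue g0 g1 g2 y = g0 y := by
  simp [glue, h.2]

theorem glue_two {g0 g1 g2 : ℝ → ℂ} {y : ℝ} (h : y ∈ Ioc (1:ℝ) 2) :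
    glue g0 g1 g2 y = g1 (y - 1) := by
  simp [glue, h.2, not_le.2 h.1]

theorem glue_three {g0 g1 g2 : ℝ → ℂ} {y : ℝ} (h : y ∈ Ioc (2:ℝ) 3) :
    glue g0 g1 g2 y = g2 (y - 2) := by
  have h1 : ¬ y ≤ 1 := by
    have := h.1
    linarith
  simp [glue, not_le.2 h.1, h1]

theorem memLp_shift {g : ℝ → ℂ} (hg : MemLp g 2 (volume.restrict (Ioc (0:ℝ) 1))) (d : ℝ) :
    MemLp (fun y => g (y - d)) 2 (volume.restrict (Ioc d (d + 1))) := by
  have h1 := (measurePreserving_sub_right volume d).restrict_preimage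
    (s := Ioc (0:ℝ) 1) measurableSet_Ioc
  have h2 : (fun x => x - d) ⁻¹' Ioc (0:ℝ) 1 = Ioc d (d + 1) := by
    ext x
    simp only [mem_preimage, mem_Ioc]
    constructor
    · rintro ⟨h, h'⟩
      exact ⟨by linarith, by linarith⟩
    · rintro ⟨h, h'⟩
      exact ⟨by linarith, by linarith⟩
  rw [h2] at h1
  exact hg.comp_measurePreserving h1

theorem memLp_union {f : ℝ → ℂ} {s t : Set ℝ} (hs : MemLp f 2 (volume.restrict s))
    (ht : MemLp f 2 (volume.restrict t)) : MemLp f 2 (volume.restrict (s ∪ t)) := by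
  have hm : AEStronglyMeasurable f (volume.restrict (s ∪ t)) :=
    aestronglyMeasurable_union_iff.2 ⟨hs.aestronglyMeasurable, ht.aestronglyMeasurable⟩
  rw [memLp_two_iff_integrable_sq_norm hm]
  have h1 := (memLp_two_iff_integrable_sq_norm hs.aestronglyMeasurable).1 hs
  have h2 := (memLp_two_iff_integrable_sq_norm ht.aestronglyMeasurable).1 ht
  exact IntegrableOn.union h1 h2

theorem memLp_glue {g0 g1 g2 : ℝ → ℂ} (h0 : MemLp g0 2 (volume.restrict (Ioc (0:ℝ) 1)))
    (h1 : MemLp g1 2 (volume.restrict (Ioc (0:ℝ) 1)))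
    (h2 : MemLp g2 2 (volume.restrict (Ioc (0:ℝ) 1))) :
    MemLp (glue g0 g1 g2) 2 (volume.restrict (Ioc (0:ℝ) 3)) := by
  have e1 : Ioc (0:ℝ) 3 = Ioc (0:ℝ) 1 ∪ (Ioc (1:ℝ) 2 ∪ Ioc (2:ℝ) 3) := by
    rw [Ioc_union_Ioc_eq_Ioc (by norm_num) (by norm_num),
      Ioc_union_Ioc_eq_Ioc (by norm_num) (by norm_num)]
  rw [e1]
  refine memLp_union ?_ (memLp_union ?_ ?_)
  · refine (memLp_congr_ae ?_).2 h0
    filter_upwards [ae_restrict_mem measurableSet_Ioc] with y hy
    exact glue_one hy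
  · have := memLp_shift h1 1
    rw [show (1 + 1 : ℝ) = 2 by norm_num] at this
    refine (memLp_congr_ae ?_).2 this
    filter_upwards [ae_restrict_mem measurableSet_Ioc] with y hy
    exact glue_two hy
  · have := memLp_shift h2 2
    rw [show (2 + 1 : ℝ) = 3 by norm_num] at this
    refine (memLp_congr_ae ?_).2 this
    filter_upwards [ae_restrict_mem measurableSet_Ioc] with y hy
    exact glue_three hy

theorem integral_glue {G : Type*} [NormedAddCommGroup G] [NormedSpace ℝ G]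
    (g0 g1 g2 : ℝ → ℂ) (Ψ : ℝ → ℂ → G)
    (hint : IntervalIntegrable (fun y => Ψ y (glue g0 g1 g2 y)) volume 0 3) :
    ∫ y in (0:ℝ)..3, Ψ y (glue g0 g1 g2 y) =
      (∫ x in (0:ℝ)..1, Ψ x (g0 x)) + (∫ x in (0:ℝ)..1, Ψ (x + 1) (g1 x))
        + ∫ x in (0:ℝ)..1, Ψ (x + 2) (g2 x) := by
  have i1 : IntervalIntegrable (fun y => Ψ y (glue g0 g1 g2 y)) volume 0 1 :=
    hint.mono_set (by
      rw [uIcc_of_le (by norm_num), uIcc_of_le (by norm_num)]
      exact Icc_subset_Icc le_rfl (by norm_num))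
  have i2 : IntervalIntegrable (fun y => Ψ y (glue g0 g1 g2 y)) volume 1 2 :=
    hint.mono_set (by
      rw [uIcc_of_le (by norm_num), uIcc_of_le (by norm_num)]
      exact Icc_subset_Icc (by norm_num) (by norm_num))
  have i3 : IntervalIntegrable (fun y => Ψ y (glue g0 g1 g2 y)) volume 2 3 :=
    hint.mono_set (by
      rw [uIcc_of_le (by norm_num), uIcc_of_le (by norm_num)]
      exact Icc_subset_Icc (by norm_num) (by norm_num))
  rw [← intervalIntegral.integral_add_adjacent_intervals (i1.trans i2) i3,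
    ← intervalIntegral.integral_add_adjacent_intervals i1 i2]
  congr 1
  · congr 1
    · refine intervalIntegral.integral_congr_ae (Filter.Eventually.of_forall fun y hy => ?_)
      rw [uIoc_of_le (by norm_num)] at hy
      simp only [glue_one hy]
    · have h := intervalIntegral.integral_comp_add_right (a := 0) (b := 1)
        (fun y => Ψ y (g1 (y - 1))) 1
      rw [show (0 + 1 : ℝ) = 1 by norm_num, show (1 + 1 : ℝ) = 2 by norm_num] at h
      simp only [add_sub_cancel_right] at h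
      rw [h]
      refine intervalIntegral.integral_congr_ae (Filter.Eventually.of_forall fun y hy => ?_)
      rw [uIoc_of_le (by norm_num)] at hy
      simp only [glue_two hy]
  · have h := intervalIntegral.integral_comp_add_right (a := 0) (b := 1)
      (fun y => Ψ y (g2 (y - 2))) 2
    rw [show (0 + 2 : ℝ) = 2 by norm_num, show (1 + 2 : ℝ) = 3 by norm_num] at h
    simp only [add_sub_cancel_right] at h
    rw [h]
    refine intervalIntegral.integral_congr_ae (Filter.Eventually.of_forall fun y hy => ?_)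
    rw [uIoc_of_le (by norm_num)] at hy
    simp only [glue_three hy]

theorem intervalIntegrable_of_memLp {g : ℝ → ℂ} {a b : ℝ} (hab : a ≤ b)
    (hg : MemLp g 2 (volume.restrict (Ioc a b))) : IntervalIntegrable g volume a b := by
  rw [intervalIntegrable_iff_integrableOn_Ioc_of_le hab]
  exact hg.integrable one_le_two

theorem intervalIntegrable_mul {g : ℝ → ℂ} {a b : ℝ} (hab : a ≤ b)
    (hg : MemLp g 2 (volume.restrict (Ioc a b))) {G : ℝ → ℂ} (hG : Continuous G) :
    IntervalIntegrable (fun x => g x * G x) volume a b :=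
  (intervalIntegrable_of_memLp hab hg).mul_continuousOn hG.continuousOn

theorem intervalIntegrable_sq {g : ℝ → ℂ} {a b : ℝ} (hab : a ≤ b)
    (hg : MemLp g 2 (volume.restrict (Ioc a b))) :
    IntervalIntegrable (fun x => ‖g x‖ ^ 2) volume a b := by
  rw [intervalIntegrable_iff_integrableOn_Ioc_of_le hab]
  exact (memLp_two_iff_integrable_sq_norm hg.aestronglyMeasurable).1 hg

/-- Key relation between Fourier coefficients. -/
theorem coeff_relation {f : Fin 3 → ℝ → ℂ}
    (hf : ∀ i, MemLp (f i) 2 (volume.restrict (Ioc (0:ℝ) 1))) {g0 g1 g2 : ℝ → ℂ}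
    (hg0 : ∀ t, g0 t = f 0 t + om * f 1 t + om * f 2 t)
    (hg1 : ∀ t, g1 t = f 0 t + om ^ 2 * f 1 t + f 2 t)
    (hg2 : ∀ t, g2 t = f 0 t + f 1 t + om ^ 2 * f 2 t)
    (m0 : MemLp g0 2 (volume.restrict (Ioc (0:ℝ) 1)))
    (m1 : MemLp g1 2 (volume.restrict (Ioc (0:ℝ) 1)))
    (m2 : MemLp g2 2 (volume.restrict (Ioc (0:ℝ) 1)))
    (n : ℤ) (horth : ∑ i, ∫ t in (0:ℝ)..1, f i t * conj (triE n i t) = 0) :
    ∫ y in (0:ℝ)..3, glue (fun t => 2 * g0 t) (fun t => -g1 t) (fun t => -g2 t) y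
        * conj (e (n / 3 * y))
      = -(om * ∫ y in (0:ℝ)..3, glue g0 g1 g2 y * conj (e (((-2 * n : ℤ) : ℝ) / 3 * y))) := by
  have hce : ∀ (r d : ℝ), Continuous fun x : ℝ => conj (e (r * (x + d))) := by
    intro r d
    exact Complex.continuous_conj.comp (by fun_prop)
  have hce0 : ∀ (r : ℝ), Continuous fun x : ℝ => conj (e (r * x)) := by
    intro r
    exact Complex.continuous_conj.comp (by fun_prop)
  have hcE : ∀ i, Continuous fun x : ℝ => conj (triE n i x) := by
    intro i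
    refine Complex.continuous_conj.comp ?_
    unfold triE
    fun_prop
  have hG := memLp_glue m0 m1 m2
  have hK := memLp_glue (m0.const_mul 2) m1.neg m2.neg
  have e1 := integral_glue g0 g1 g2
    (fun y z => z * conj (e (((-2 * n : ℤ) : ℝ) / 3 * y)))
    (intervalIntegrable_mul (by norm_num) hG (hce0 _))
  have e2 := integral_glue (fun t => 2 * g0 t) (fun t => -g1 t) (fun t => -g2 t)
    (fun y z => z * conj (e (n / 3 * y)))
    (intervalIntegrable_mul (by norm_num) hK (hce0 _))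
  rw [e1, e2]
  -- the orthogonality relation
  have hE : ∀ i, IntervalIntegrable (fun t => f i t * conj (triE n i t)) volume 0 1 :=
    fun i => intervalIntegrable_mul zero_le_one (hf i) (hcE i)
  rw [Fin.sum_univ_three, ← intervalIntegral.integral_add (hE 0) (hE 1),
    ← intervalIntegral.integral_add ((hE 0).add (hE 1)) (hE 2)] at horth
  have i1 := intervalIntegrable_mul zero_le_one (m0.const_mul 2) (hce0 (n / 3))
  have i2 := intervalIntegrable_mul zero_le_one m1.neg (hce (n / 3) 1)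
  have i3 := intervalIntegrable_mul zero_le_one m2.neg (hce (n / 3) 2)
  have j1 := intervalIntegrable_mul zero_le_one m0 (hce0 (((-2 * n : ℤ) : ℝ) / 3))
  have j2 := intervalIntegrable_mul zero_le_one m1 (hce (((-2 * n : ℤ) : ℝ) / 3) 1)
  have j3 := intervalIntegrable_mul zero_le_one m2 (hce (((-2 * n : ℤ) : ℝ) / 3) 2)
  simp only [Pi.neg_apply] at i2 i3
  rw [← intervalIntegral.integral_add i1 i2, ← intervalIntegral.integral_add (i1.add i2) i3,
    ← intervalIntegral.integral_add j1 j2, ← intervalIntegral.integral_add (j1.add j2) j3,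
    ← intervalIntegral.integral_const_mul, ← sub_eq_zero, sub_neg_eq_add,
    ← intervalIntegral.integral_add ((i1.add i2).add i3) (((j1.add j2).add j3).const_mul om)]
  have ha : conj (tria n) ≠ 0 := by
    intro h0
    have h1 := norm_tria n
    rw [← Complex.norm_conj, h0, norm_zero] at h1
    exact zero_ne_one h1
  apply mul_left_cancel₀ ha
  rw [mul_zero, ← intervalIntegral.integral_const_mul, ← mul_zero (3 : ℂ), ← horth,
    ← intervalIntegral.integral_const_mul]
  refine intervalIntegral.integral_congr fun x _ => ?_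
  have hp := dft_plancherel (f 0 x) (f 1 x) (f 2 x) (triE n 0 x) (triE n 1 x) (triE n 2 x)
  rw [triE_dft_zero, triE_dft_one, triE_dft_two, ← hg0, ← hg1, ← hg2] at hp
  simp only [map_add, map_mul, map_neg, conj_om_sq, map_ofNat] at hp
  have r0 : (((-2 * n : ℤ) : ℝ) / 3 * x) = n / 3 * (-2 * x) := by push_cast; ring
  have r1 : (((-2 * n : ℤ) : ℝ) / 3 * (x + 1)) = n / 3 * (-2 * (x + 1)) := by push_cast; ring
  have r2 : (((-2 * n : ℤ) : ℝ) / 3 * (x + 2)) = n / 3 * (-2 * (x + 2)) := by push_cast; ring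
  simp only [r0, r1, r2]
  linear_combination hp

theorem tri_complete (f : Fin 3 → ℝ → ℂ)
    (hf : ∀ i, MemLp (f i) 2 (volume.restrict (Ioc (0:ℝ) 1)))
    (horth : ∀ n : ℤ, ∑ i, ∫ t in (0:ℝ)..1, f i t * conj (triE n i t) = 0) :
    ∀ i, ∀ᵐ t ∂(volume.restrict (Ioc (0:ℝ) 1)), f i t = 0 := by
  obtain ⟨g0, hg0⟩ : ∃ g0 : ℝ → ℂ, g0 = fun t => f 0 t + om * f 1 t + om * f 2 t := ⟨_, rfl⟩
  obtain ⟨g1, hg1⟩ : ∃ g1 : ℝ → ℂ, g1 = fun t => f 0 t + om ^ 2 * f 1 t + f 2 t := ⟨_, rfl⟩
  obtain ⟨g2, hg2⟩ : ∃ g2 : ℝ → ℂ, g2 = fun t => f 0 t + f 1 t + om ^ 2 * f 2 t := ⟨_, rfl⟩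
  have m0 : MemLp g0 2 (volume.restrict (Ioc (0:ℝ) 1)) := by
    rw [hg0]
    exact ((hf 0).add ((hf 1).const_mul _)).add ((hf 2).const_mul _)
  have m1 : MemLp g1 2 (volume.restrict (Ioc (0:ℝ) 1)) := by
    rw [hg1]
    exact ((hf 0).add ((hf 1).const_mul _)).add (hf 2)
  have m2 : MemLp g2 2 (volume.restrict (Ioc (0:ℝ) 1)) := by
    rw [hg2]
    exact ((hf 0).add (hf 1)).add ((hf 2).const_mul _)
  have hG := memLp_glue m0 m1 m2
  have hK := memLp_glue (m0.const_mul 2) m1.neg m2.neg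
  have hrel := fun n => coeff_relation hf (fun t => by rw [hg0]) (fun t => by rw [hg1])
    (fun t => by rw [hg2]) m0 m1 m2 n (horth n)
  -- Parseval for the two glued functions
  have hsH := hasSum_coeff 3 (by norm_num) _ hG
  have hsK := hasSum_coeff 3 (by norm_num) _ hK
  obtain ⟨H, hH⟩ : ∃ H : ℤ → ℂ, H = fun n : ℤ =>
    ∫ y in (0:ℝ)..3, glue g0 g1 g2 y * conj (e (n / 3 * y)) := ⟨_, rfl⟩
  have hHa : ∀ n : ℤ, ∫ y in (0:ℝ)..3, glue g0 g1 g2 y * conj (e (n / 3 * y)) = H n := by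
    intro n
    rw [hH]
  simp only [hHa] at hrel hsH
  simp only [Pi.neg_def] at hsK
  simp only [hrel, norm_neg, norm_mul, norm_om, one_mul] at hsK
  -- integrals of squares
  have q0 := intervalIntegrable_sq zero_le_one m0
  have q1 := intervalIntegrable_sq zero_le_one m1
  have q2 := intervalIntegrable_sq zero_le_one m2
  have sqH := integral_glue g0 g1 g2 (fun _ z => ‖z‖ ^ 2)
    (intervalIntegrable_sq (by norm_num) hG)
  have sqK := integral_glue (fun t => 2 * g0 t) (fun t => -g1 t) (fun t => -g2 t)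
    (fun _ z => ‖z‖ ^ 2) (intervalIntegrable_sq (by norm_num) hK)
  simp only [norm_neg, norm_mul, Complex.norm_ofNat, mul_pow] at sqK
  rw [intervalIntegral.integral_const_mul] at sqK
  have hle : ∑' n : ℤ, ‖H (-2 * n)‖ ^ 2 ≤ ∑' n : ℤ, ‖H n‖ ^ 2 :=
    tsum_comp_le_tsum_of_inj (f := fun n => ‖H n‖ ^ 2) hsH.summable (fun n => by positivity)
      (i := fun n : ℤ => -2 * n) (fun a b hab => by simpa using hab)
  have hsK' : HasSum (fun n : ℤ => ‖H (-2 * n)‖ ^ 2)
      (3 * ∫ x in (0:ℝ)..3, ‖glue (fun t => 2 * g0 t) (fun t => -g1 t) (fun t => -g2 t) x‖ ^ 2) :=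
    hsK
  rw [hsK'.tsum_eq, hsH.tsum_eq, sqH, sqK] at hle
  have n0 : 0 ≤ ∫ x in (0:ℝ)..1, ‖g0 x‖ ^ 2 :=
    intervalIntegral.integral_nonneg zero_le_one fun _ _ => by positivity
  have z0 : ∫ x in (0:ℝ)..1, ‖g0 x‖ ^ 2 = 0 := by nlinarith
  have a0 := ae_zero_of_integral_sq 1 one_pos g0 m0 z0
  -- now the second glued function is minus the first one
  have hKH : ∀ n : ℤ, ∫ y in (0:ℝ)..3,
      glue (fun t => 2 * g0 t) (fun t => -g1 t) (fun t => -g2 t) y * conj (e (n / 3 * y))
      = -H n := by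
    intro n
    rw [← hHa n, ← intervalIntegral.integral_neg]
    have hce0 : ∀ (r : ℝ), Continuous fun x : ℝ => conj (e (r * x)) := by
      intro r
      exact Complex.continuous_conj.comp (by fun_prop)
    have e1 := integral_glue g0 g1 g2 (fun y z => -(z * conj (e (n / 3 * y))))
      (intervalIntegrable_mul (by norm_num) hG (hce0 _)).neg
    have e2 := integral_glue (fun t => 2 * g0 t) (fun t => -g1 t) (fun t => -g2 t)
      (fun y z => z * conj (e (n / 3 * y)))
      (intervalIntegrable_mul (by norm_num) hK (hce0 _))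
    rw [e1, e2]
    congr 1
    · congr 1
      · apply intervalIntegral.integral_congr_ae
        rw [uIoc_of_le zero_le_one]
        rw [ae_restrict_iff' measurableSet_Ioc] at a0
        filter_upwards [a0] with x hx hx1
        rw [hx hx1]
        simp
      · refine intervalIntegral.integral_congr fun x _ => ?_
        simp
    · refine intervalIntegral.integral_congr fun x _ => ?_
      simp
  have hHrel : ∀ n : ℤ, H n = om * H (-2 * n) := by
    intro n
    have := (hKH n).symm.trans (hrel n)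
    exact neg_injective this
  have hHn : ∀ n : ℤ, ‖H (-2 * n)‖ ^ 2 = ‖H n‖ ^ 2 := by
    intro n
    rw [hHrel n, norm_mul, norm_om, one_mul]
  have hH0 : ∀ n : ℤ, H n = 0 := by
    intro n
    by_cases hn : n = 0
    · subst hn
      have h1 := hHrel 0
      rw [mul_zero] at h1
      have h2 : (1 - om) * H 0 = 0 := by linear_combination h1
      exact (mul_eq_zero.1 h2).resolve_left (sub_ne_zero.2 om_ne_one.symm)
    · have h1 : ∀ k : ℕ, ‖H ((-2) ^ k * n)‖ ^ 2 = ‖H n‖ ^ 2 := by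
        intro k
        induction k with
        | zero => simp
        | succ k ih =>
          rw [← ih, show (-2 : ℤ) ^ (k + 1) * n = -2 * ((-2) ^ k * n) by ring, hHn]
      have hinj : Function.Injective fun k : ℕ => (-2 : ℤ) ^ k * n := by
        intro a b hab
        have h2 : (-2 : ℤ) ^ a = (-2) ^ b := mul_right_cancel₀ hn hab
        have h3 : ((-2 : ℤ) ^ a).natAbs = ((-2 : ℤ) ^ b).natAbs := by rw [h2]
        rw [Int.natAbs_pow, Int.natAbs_pow] at h3
        exact Nat.pow_right_injective (le_refl 2) h3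
      have h4 := hsH.summable.tendsto_cofinite_zero.comp hinj.tendsto_cofinite
      have h5 : ((fun n => ‖H n‖ ^ 2) ∘ fun k : ℕ => (-2 : ℤ) ^ k * n)
          = fun _ => ‖H n‖ ^ 2 := by
        funext k
        exact h1 k
      rw [h5] at h4
      have h6 : ‖H n‖ ^ 2 = 0 := tendsto_nhds_unique tendsto_const_nhds h4
      simpa using h6
  -- hence everything vanishes
  have hz : ∫ x in (0:ℝ)..3, ‖glue g0 g1 g2 x‖ ^ 2 = 0 := by
    simp only [hH0, norm_zero] at hsH
    norm_num at hsH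
    have h2 := hsH.unique hasSum_zero
    linarith
  rw [sqH] at hz
  have n1 : 0 ≤ ∫ x in (0:ℝ)..1, ‖g1 x‖ ^ 2 :=
    intervalIntegral.integral_nonneg zero_le_one fun _ _ => by positivity
  have n2 : 0 ≤ ∫ x in (0:ℝ)..1, ‖g2 x‖ ^ 2 :=
    intervalIntegral.integral_nonneg zero_le_one fun _ _ => by positivity
  have a1 := ae_zero_of_integral_sq 1 one_pos g1 m1 (by linarith)
  have a2 := ae_zero_of_integral_sq 1 one_pos g2 m2 (by linarith)
  intro i
  filter_upwards [a0, a1, a2] with t t0 t1 t2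
  have hp := dft_norm (f 0 t) (f 1 t) (f 2 t)
  have e0 : f 0 t + om * f 1 t + om * f 2 t = 0 := by
    rw [← t0, hg0]
  have e1 : f 0 t + om ^ 2 * f 1 t + f 2 t = 0 := by
    rw [← t1, hg1]
  have e2 : f 0 t + f 1 t + om ^ 2 * f 2 t = 0 := by
    rw [← t2, hg2]
  rw [e0, e1, e2, norm_zero] at hp
  have hall : ‖f i t‖ ^ 2 = 0 := by
    have b0 := sq_nonneg ‖f 0 t‖
    have b1 := sq_nonneg ‖f 1 t‖
    have b2 := sq_nonneg ‖f 2 t‖
    fin_cases i
    · change ‖f 0 t‖ ^ 2 = 0
      nlinarith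
    · change ‖f 1 t‖ ^ 2 = 0
      nlinarith
    · change ‖f 2 t‖ ^ 2 = 0
      nlinarith
  simpa using hall

end Pool.Agent.Work.MP_9e9244_an
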