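import Pool.Agent.Work.MP_9e9244_an.Geometry

open MeasureTheory Set
open scoped ENNReal ComplexConjugate

namespace Pool.Agent.Work.MP_9e9244_an

/-- The affine basis attached to three affinely independent points of the plane. -/
noncomputable def triBasis (P : Fin 3 → Plane) (hP : AffineIndependent ℝ P) :
    AffineBasis (Fin 3) ℝ Plane :=
  ⟨P, hP, by
    rw [hP.affineSpan_eq_top_iff_card_eq_finrank_add_one]
    simp⟩

theorem sum_cyc {M : Type*} [AddCommMonoid M] (f : Fin 3 → M) (i : Fin 3) :
    ∑ k, f k = f i + f (i + 1) + f (i + 2) := by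
  rw [Fin.sum_univ_three]
  fin_cases i
  · rfl
  · change _ = f 1 + f 2 + f 0
    abel
  · change _ = f 2 + f 0 + f 1
    abel

theorem ne_add_one (i : Fin 3) : i ≠ i + 1 := by
  revert i; decide

theorem ne_add_two (i : Fin 3) : i ≠ i + 2 := by
  revert i; decide

theorem add_one_ne_add_two (i : Fin 3) : i + 1 ≠ i + 2 := by
  revert i; decide

theorem segment_eq_coord (P : Fin 3 → Plane) (hP : AffineIndependent ℝ P) (i : Fin 3) :
    segment ℝ (P (i + 1)) (P (i + 2)) =
      {x | (triBasis P hP).coord i x = 0 ∧ ∀ k, 0 ≤ (triBasis P hP).coord k x} := by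
  set b := triBasis P hP with hb
  have hbP : ∀ i, P i = b i := fun _ => rfl
  have hsum : ∀ x, b.coord i x + b.coord (i + 1) x + b.coord (i + 2) x = 1 := by
    intro x
    have := b.sum_coord_apply_eq_one x
    rwa [sum_cyc _ i] at this
  have hlin : ∀ x, b.coord i x • P i + b.coord (i + 1) x • P (i + 1)
      + b.coord (i + 2) x • P (i + 2) = x := by
    intro x
    have := b.linear_combination_coord_eq_self x
    rwa [sum_cyc _ i] at this
  ext x
  rw [segment_eq_image_lineMap]
  constructor
  · rintro ⟨t, ht, rfl⟩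
    have hc : ∀ k, b.coord k (AffineMap.lineMap (P (i + 1)) (P (i + 2)) t)
        = (1 - t) * (if k = i + 1 then 1 else 0) + t * (if k = i + 2 then 1 else 0) := by
      intro k
      rw [AffineMap.apply_lineMap, AffineMap.lineMap_apply_module, hbP, hbP,
        AffineBasis.coord_apply, AffineBasis.coord_apply]
      simp
    constructor
    · rw [hc, if_neg (ne_add_one i), if_neg (ne_add_two i)]
      ring
    · intro k
      rw [hc]
      have := ht.1
      have := ht.2
      split_ifs <;> nlinarith
  · rintro ⟨h0, hk⟩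
    have h1 := hsum x
    have h2 := hlin x
    rw [h0] at h1 h2
    refine ⟨b.coord (i + 2) x, ⟨hk _, ?_⟩, ?_⟩
    · have := hk (i + 1)
      linarith
    · rw [AffineMap.lineMap_apply_module]
      have h3 : 1 - b.coord (i + 2) x = b.coord (i + 1) x := by linarith
      rw [h3]
      simpa using h2

theorem triangle_frontier (P : Fin 3 → Plane) (hP : AffineIndependent ℝ P) :
    frontier (convexHull ℝ (range P)) = ⋃ i : Fin 3, segment ℝ (P (i + 1)) (P (i + 2)) := by
  have hbr : range P = range (triBasis P hP) := rfl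
  have hclosed : IsClosed (convexHull ℝ (range P)) :=
    ((finite_range P).isCompact_convexHull (𝕜 := ℝ)).isClosed
  rw [hclosed.frontier_eq, hbr, AffineBasis.interior_convexHull,
    AffineBasis.convexHull_eq_nonneg_coord]
  ext x
  simp only [segment_eq_coord P hP, mem_iUnion]
  constructor
  · rintro ⟨h1, h2⟩
    have h3 : ∃ i, ¬ 0 < (triBasis P hP).coord i x := by
      by_contra h
      push Not at h
      exact h2 h
    obtain ⟨i, hi⟩ := h3
    exact ⟨i, le_antisymm (not_lt.1 hi) (h1 i), h1⟩
  · rintro ⟨i, hi, hk⟩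
    exact ⟨hk, fun h => absurd (h i) (by rw [hi]; exact lt_irrefl 0)⟩

theorem univ_three_eq : ∀ i j k : Fin 3, i ≠ j → k ≠ i → k ≠ j →
    (Finset.univ : Finset (Fin 3)) = {i, j, k} := by
  decide

theorem triangle_inter (P : Fin 3 → Plane) (hP : AffineIndependent ℝ P) (i j : Fin 3)
    (hij : i ≠ j) :
    (segment ℝ (P (i + 1)) (P (i + 2)) ∩ segment ℝ (P (j + 1)) (P (j + 2))).Subsingleton := by
  rw [segment_eq_coord P hP, segment_eq_coord P hP]
  rintro x ⟨⟨hxi, -⟩, ⟨hxj, -⟩⟩ y ⟨⟨hyi, -⟩, ⟨hyj, -⟩⟩
  set b := triBasis P hP with hb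
  apply b.ext_elem
  intro k
  by_cases hki : k = i
  · rw [hki, hxi, hyi]
  by_cases hkj : k = j
  · rw [hkj, hxj, hyj]
  have h1 := b.sum_coord_apply_eq_one x
  have h2 := b.sum_coord_apply_eq_one y
  have huniv := univ_three_eq i j k hij hki hkj
  rw [huniv, Finset.sum_insert (by simp [hij, Ne.symm hki]),
    Finset.sum_insert (by simp [Ne.symm hkj]), Finset.sum_singleton] at h1 h2
  rw [hxi, hxj] at h1
  rw [hyi, hyj] at h2
  linarith

end Pool.Agent.Work.MP_9e9244_an
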