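import Pool.Agent.Work.MP_9e9244_an.Defs

open MeasureTheory Set
open scoped ENNReal ComplexConjugate

namespace Pool.Agent.Work.MP_9e9244_an

theorem continuous_expo (l : Plane) : Continuous (expo l) := by
  unfold expo
  fun_prop

theorem norm_expo (l x : Plane) : ‖expo l x‖ = 1 := by
  unfold expo
  rw [show 2 * (Real.pi : ℂ) * Complex.I * ((inner ℝ l x : ℝ) : ℂ)
    = ((2 * Real.pi * inner ℝ l x : ℝ) : ℂ) * Complex.I by push_cast; ring]
  exact Complex.norm_exp_ofReal_mul_I _

/-- Exponentials are square integrable for a finite measure. -/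
theorem memLp_expo (μ : Measure Plane) [IsFiniteMeasure μ] (l : Plane) :
    MemLp (expo l) 2 μ :=
  MemLp.of_bound (continuous_expo l).aestronglyMeasurable 1
    (Filter.Eventually.of_forall fun x => (norm_expo l x).le)

/-- The class of the exponential `e_l` in `L²(μ)`, for a finite measure `μ`. -/
noncomputable def expoLp (μ : Measure Plane) [IsFiniteMeasure μ] (l : Plane) : Lp ℂ 2 μ :=
  (memLp_expo μ l).toLp (expo l)

section Curves

variable {ι : Type} [Fintype ι] {γ : ι → ℝ → Plane} {w : ι → ℝ}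

/-- Sum of weighted arc measures. -/
noncomputable def curveMeasure (γ : ι → ℝ → Plane) (w : ι → ℝ) : Measure Plane :=
  ∑ i, ENNReal.ofReal (w i) • Measure.map (γ i) (volume.restrict (Ioc (0:ℝ) 1))

theorem integral_curves {G : Type*} [NormedAddCommGroup G] [NormedSpace ℝ G]
    (hγ : ∀ i, Continuous (γ i)) (hw : ∀ i, 0 < w i) (F : Plane → G)
    (hF : Integrable F (curveMeasure γ w)) :
    ∫ x, F x ∂(curveMeasure γ w) = ∑ i, w i • ∫ t in (0:ℝ)..1, F (γ i t) := by
  have hF' := hF
  unfold curveMeasure at hF ⊢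
  rw [integrable_finsetSum_measure] at hF
  rw [integral_finsetSum_measure hF]
  refine Finset.sum_congr rfl fun i hi => ?_
  have h1 := hF i hi
  rw [integrable_smul_measure (by simpa using hw i) ENNReal.ofReal_ne_top] at h1
  rw [integral_smul_measure, ENNReal.toReal_ofReal (hw i).le,
    integral_map (hγ i).aemeasurable h1.aestronglyMeasurable,
    intervalIntegral.integral_of_le zero_le_one]

theorem smul_map_le (i : ι) :
    ENNReal.ofReal (w i) • Measure.map (γ i) (volume.restrict (Ioc (0:ℝ) 1))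
      ≤ curveMeasure γ w := by
  unfold curveMeasure
  exact Finset.single_le_sum (f := fun i => ENNReal.ofReal (w i) •
      Measure.map (γ i) (volume.restrict (Ioc (0:ℝ) 1))) (fun _ _ => Measure.zero_le _)
      (Finset.mem_univ i)

theorem memLp_curves (hγ : ∀ i, Continuous (γ i)) (hw : ∀ i, 0 < w i) {f : Plane → ℂ}
    (hf : MemLp f 2 (curveMeasure γ w)) (i : ι) :
    MemLp (fun t => f (γ i t)) 2 (volume.restrict (Ioc (0:ℝ) 1)) := by
  have h1 : MemLp f 2 (ENNReal.ofReal (w i) • Measure.map (γ i) (volume.restrict (Ioc (0:ℝ) 1))) :=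
    hf.mono_measure (smul_map_le i)
  have h2 : MemLp f 2 (Measure.map (γ i) (volume.restrict (Ioc (0:ℝ) 1))) := by
    have h3 := h1.smul_measure (c := (ENNReal.ofReal (w i))⁻¹) (by
      simpa using hw i)
    rwa [smul_smul, ENNReal.inv_mul_cancel (by simpa using hw i) ENNReal.ofReal_ne_top,
      one_smul] at h3
  exact (memLp_map_measure_iff h2.aestronglyMeasurable (hγ i).aemeasurable).1 h2

theorem ae_map_of_curves (hw : ∀ i, 0 < w i) {p : Plane → Prop}
    (h : ∀ᵐ x ∂(curveMeasure γ w), p x) (i : ι) :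
    ∀ᵐ x ∂(Measure.map (γ i) (volume.restrict (Ioc (0:ℝ) 1))), p x := by
  have h1 : ∀ᵐ x ∂(ENNReal.ofReal (w i) • Measure.map (γ i) (volume.restrict (Ioc (0:ℝ) 1))),
      p x := (smul_map_le i).absolutelyContinuous.ae_le h
  have hne : ENNReal.ofReal (w i) ≠ 0 := by simpa using hw i
  rwa [Measure.ae_ennreal_smul_measure_eq hne] at h1

theorem ae_curves (hγ : ∀ i, Continuous (γ i)) (hw : ∀ i, 0 < w i) {f : Plane → ℂ}
    (hf : AEStronglyMeasurable f (curveMeasure γ w))
    (h : ∀ i, ∀ᵐ t ∂(volume.restrict (Ioc (0:ℝ) 1)), f (γ i t) = 0) :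
    f =ᵐ[curveMeasure γ w] 0 := by
  have hg := hf.ae_eq_mk
  have hgm := hf.stronglyMeasurable_mk
  set g := hf.mk f with hgdef
  have h0 : g =ᵐ[curveMeasure γ w] 0 := by
    unfold curveMeasure
    rw [Filter.EventuallyEq, ← Measure.sum_fintype, Measure.ae_sum_iff]
    intro i
    have hne : ENNReal.ofReal (w i) ≠ 0 := by simpa using hw i
    rw [Measure.ae_ennreal_smul_measure_eq hne]
    refine (ae_map_iff (hγ i).aemeasurable
      (hgm.measurableSet_eq_fun stronglyMeasurable_const)).2 ?_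
    have h1 := ae_of_ae_map (hγ i).aemeasurable (ae_map_of_curves hw hg i)
    filter_upwards [h1, h i] with t ht1 ht2
    rw [← ht1, ht2]
    rfl
  exact hg.trans h0

theorem norm_sq_eq_integral {μ : Measure Plane} (F : Lp ℂ 2 μ) :
    ‖F‖ ^ 2 = ∫ x, ‖F x‖ ^ 2 ∂μ := by
  have h := inner_self_eq_norm_sq_to_K (𝕜 := ℂ) F
  rw [L2.inner_def] at h
  simp only [inner_self_eq_norm_sq_to_K] at h
  have h2 : ((∫ x, ‖F x‖ ^ 2 ∂μ : ℝ) : ℂ) = ((‖F‖ ^ 2 : ℝ) : ℂ) := by
    rw [← integral_complex_ofReal]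
    push_cast
    exact h
  exact_mod_cast h2.symm

theorem memLp_sum_expo (μ : Measure Plane) [IsFiniteMeasure μ] {K : Type} (s : Finset K)
    (c : K → ℂ) (l : K → Plane) : MemLp (fun x => ∑ k ∈ s, c k * expo (l k) x) 2 μ :=
  memLp_finsetSum _ fun k _ => (memLp_expo μ (l k)).const_mul (c k)

theorem coeFn_sum_expoLp (μ : Measure Plane) [IsFiniteMeasure μ] {K : Type} (s : Finset K)
    (c : K → ℂ) (l : K → Plane) :
    (∑ k ∈ s, c k • expoLp μ (l k) : Lp ℂ 2 μ) =ᵐ[μ] fun x => ∑ k ∈ s, c k * expo (l k) x := by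
  refine (Lp.coeFn_fun_finsetSum _ _).trans ?_
  have h2 : ∀ k, (c k • expoLp μ (l k) : Lp ℂ 2 μ) =ᵐ[μ] fun x => c k * expo (l k) x := by
    intro k
    refine (Lp.coeFn_smul _ _).trans ?_
    filter_upwards [MemLp.coeFn_toLp (memLp_expo μ (l k))] with x hx
    simp only [Pi.smul_apply, smul_eq_mul, expoLp, hx]
  have h3 : ∀ᵐ x ∂μ, ∀ k ∈ s, (c k • expoLp μ (l k) : Lp ℂ 2 μ) x = c k * expo (l k) x :=
    (Filter.eventually_all_finset s).2 fun k _ => h2 k
  filter_upwards [h3] with x hx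
  exact Finset.sum_congr rfl hx

/-- Density of the span in `L²(μ)` follows from completeness. -/
theorem spanDense_of_dense (μ : Measure Plane) [IsFiniteMeasure μ] (Λ : Set Plane)
    (h : (Submodule.span ℂ (expoLp μ '' Λ)).topologicalClosure = ⊤) : SpanDense μ Λ := by
  intro f hf ε hε
  have hmem : hf.toLp f ∈ (Submodule.span ℂ (expoLp μ '' Λ)).topologicalClosure := by
    rw [h]
    trivial
  rw [← SetLike.mem_coe, Submodule.topologicalClosure_coe, Metric.mem_closure_iff] at hmem
  obtain ⟨g, hg, hdist⟩ := hmem (Real.sqrt ε) (Real.sqrt_pos.2 hε)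
  rw [SetLike.mem_coe, Finsupp.mem_span_image_iff_linearCombination] at hg
  obtain ⟨c, hc, rfl⟩ := hg
  refine ⟨c, by simpa [Finsupp.mem_supported] using hc, ?_⟩
  have h1 : normSq μ (fun x => f x - expSum c x)
      = ‖hf.toLp f - Finsupp.linearCombination ℂ (expoLp μ) c‖ ^ 2 := by
    rw [norm_sq_eq_integral, normSq]
    refine integral_congr_ae ?_
    have h2 := coeFn_sum_expoLp μ c.support c id
    have h3 : (Finsupp.linearCombination ℂ (expoLp μ) c : Lp ℂ 2 μ)
        = ∑ k ∈ c.support, c k • expoLp μ (id k) := rfl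
    rw [h3]
    filter_upwards [h2, MemLp.coeFn_toLp hf,
      Lp.coeFn_sub (hf.toLp f) (∑ k ∈ c.support, c k • expoLp μ (id k))] with x a1 a2 a3
    rw [a3, Pi.sub_apply, a2, a1]
    rfl
  rw [h1]
  rw [dist_eq_norm] at hdist
  calc _ < (Real.sqrt ε) ^ 2 := pow_lt_pow_left₀ hdist (norm_nonneg _) two_ne_zero
    _ = ε := Real.sq_sqrt hε.le

theorem normSq_sum [IsFiniteMeasure (curveMeasure γ w)]
    (hγ : ∀ i, Continuous (γ i)) (hw : ∀ i, 0 < w i) {K : Type} (s : Finset K) (c : K → ℂ)
    (l : K → Plane) :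
    normSq (curveMeasure γ w) (fun x => ∑ k ∈ s, c k * expo (l k) x)
      = ∑ i, w i * ∫ t in (0:ℝ)..1, ‖∑ k ∈ s, c k * expo (l k) (γ i t)‖ ^ 2 := by
  have hmem := memLp_sum_expo (curveMeasure γ w) s c l
  rw [normSq, integral_curves hγ hw]
  · simp only [smul_eq_mul]
  · exact (memLp_two_iff_integrable_sq_norm hmem.aestronglyMeasurable).1 hmem

/-- Abstract criterion for an exponential Riesz basis of a measure carried by finitely many
arcs. -/
theorem criterion {J : Type} [Countable J] [hfin : IsFiniteMeasure (curveMeasure γ w)]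
    (hγ : ∀ i, Continuous (γ i)) (a b : ℝ) (ha : 0 < a) (hwa : ∀ i, a ≤ w i) (hwb : ∀ i, w i ≤ b)
    (lam : J → Plane) (θ : J → ℂ) (hθ : ∀ j, ‖θ j‖ = 1) (E : J → ι → ℝ → ℂ)
    (hE : ∀ j i t, expo (lam j) (γ i t) = θ j * E j i t)
    (C1 C2 : ℝ) (hC1 : 0 < C1)
    (hlow : ∀ (s : Finset J) (c : J → ℂ), C1 * ∑ j ∈ s, ‖c j‖ ^ 2 ≤
      ∑ i, ∫ t in (0:ℝ)..1, ‖∑ j ∈ s, c j * E j i t‖ ^ 2)
    (hup : ∀ (s : Finset J) (c : J → ℂ), ∑ i, ∫ t in (0:ℝ)..1, ‖∑ j ∈ s, c j * E j i t‖ ^ 2 ≤
      C2 * ∑ j ∈ s, ‖c j‖ ^ 2)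
    (hcomp : ∀ f : ι → ℝ → ℂ, (∀ i, MemLp (f i) 2 (volume.restrict (Ioc (0:ℝ) 1))) →
      (∀ j, ∑ i, ∫ t in (0:ℝ)..1, f i t * conj (E j i t) = 0) →
      ∀ i, ∀ᵐ t ∂(volume.restrict (Ioc (0:ℝ) 1)), f i t = 0) :
    IsExpRieszBasis (curveMeasure γ w) (range lam) := by
  have hw : ∀ i, 0 < w i := fun i => lt_of_lt_of_le ha (hwa i)
  -- the two inequalities for families indexed by `J`
  have hnorm : ∀ (s : Finset J) (c : J → ℂ),
      normSq (curveMeasure γ w) (fun x => ∑ j ∈ s, c j * expo (lam j) x)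
        = ∑ i, w i * ∫ t in (0:ℝ)..1, ‖∑ j ∈ s, (c j * θ j) * E j i t‖ ^ 2 := by
    intro s c
    rw [normSq_sum hγ hw s c lam]
    simp only [hE, mul_assoc]
  have hcθ : ∀ (s : Finset J) (c : J → ℂ),
      ∑ j ∈ s, ‖c j * θ j‖ ^ 2 = ∑ j ∈ s, ‖c j‖ ^ 2 := by
    intro s c
    simp only [norm_mul, hθ, mul_one]
  have hnn : ∀ (s : Finset J) (c : J → ℂ) (i : ι),
      0 ≤ ∫ t in (0:ℝ)..1, ‖∑ j ∈ s, c j * E j i t‖ ^ 2 := fun s c i =>
    intervalIntegral.integral_nonneg zero_le_one fun t _ => by positivity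
  have hLow : ∀ (s : Finset J) (c : J → ℂ), (a * C1) * ∑ j ∈ s, ‖c j‖ ^ 2 ≤
      normSq (curveMeasure γ w) (fun x => ∑ j ∈ s, c j * expo (lam j) x) := by
    intro s c
    rw [hnorm, ← hcθ s c, mul_assoc]
    refine (mul_le_mul_of_nonneg_left (hlow s fun j => c j * θ j) ha.le).trans ?_
    rw [Finset.mul_sum]
    exact Finset.sum_le_sum fun i _ =>
      mul_le_mul_of_nonneg_right (hwa i) (hnn s (fun j => c j * θ j) i)
  have hUp : ∀ (s : Finset J) (c : J → ℂ),
      normSq (curveMeasure γ w) (fun x => ∑ j ∈ s, c j * expo (lam j) x) ≤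
        (b * C2) * ∑ j ∈ s, ‖c j‖ ^ 2 := by
    intro s c
    rw [hnorm, ← hcθ s c]
    by_cases hι : Nonempty ι
    · obtain ⟨i0⟩ := hι
      have hb : 0 ≤ b := (hw i0).le.trans (hwb i0)
      refine le_trans ?_ ((mul_le_mul_of_nonneg_left (hup s fun j => c j * θ j) hb).trans_eq
        (mul_assoc _ _ _).symm)
      rw [Finset.mul_sum]
      exact Finset.sum_le_sum fun i _ =>
        mul_le_mul_of_nonneg_right (hwb i) (hnn s (fun j => c j * θ j) i)
    · have h1 := hlow s (fun j => c j * θ j)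
      have hempty : IsEmpty ι := not_nonempty_iff.1 hι
      simp only [Finset.univ_eq_empty, Finset.sum_empty] at h1 ⊢
      have h2 : 0 ≤ ∑ j ∈ s, ‖c j * θ j‖ ^ 2 := Finset.sum_nonneg fun _ _ => by positivity
      have h3 : ∑ j ∈ s, ‖c j * θ j‖ ^ 2 = 0 := by nlinarith
      rw [h3, mul_zero]
  -- injectivity
  have hinj : Function.Injective lam := by
    classical
    intro j k hjk
    by_contra hne
    have h1 := hLow {j, k} (fun l => if l = j then 1 else -1)
    rw [Finset.sum_pair hne] at h1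
    simp only [Finset.sum_pair hne, if_true, if_neg (Ne.symm hne), hjk] at h1
    simp [normSq] at h1
    have : 0 < a * C1 := mul_pos ha hC1
    nlinarith
  refine ⟨hfin, countable_range lam, ?_, a * C1, max (a * C1) (b * C2), mul_pos ha hC1,
    le_max_left _ _, ?_⟩
  · -- density
    apply spanDense_of_dense
    rw [Submodule.topologicalClosure_eq_top_iff, eq_bot_iff]
    intro f hf
    rw [Submodule.mem_orthogonal] at hf
    rw [Submodule.mem_bot]
    have hfm : MemLp f 2 (curveMeasure γ w) := Lp.memLp f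
    have horth : ∀ j, ∑ i, ∫ t in (0:ℝ)..1, ((w i : ℂ) * f (γ i t)) * conj (E j i t) = 0 := by
      intro j
      have h1 := hf (expoLp (curveMeasure γ w) (lam j))
        (Submodule.subset_span ⟨lam j, mem_range_self j, rfl⟩)
      rw [L2.inner_def] at h1
      have h2 : ∫ x, f x * conj (expo (lam j) x) ∂(curveMeasure γ w) = 0 := by
        rw [← h1]
        refine integral_congr_ae ?_
        filter_upwards [MemLp.coeFn_toLp (memLp_expo (curveMeasure γ w) (lam j))] with x hx
        simp only [expoLp, hx, RCLike.inner_apply]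
      have hint : Integrable (fun x => f x * conj (expo (lam j) x)) (curveMeasure γ w) := by
        have h3 := MemLp.integrable_mul hfm (memLp_expo (curveMeasure γ w) (lam j)).star
        exact h3
      rw [integral_curves hγ hw _ hint] at h2
      have h4 : conj (θ j) * ∑ i, ∫ t in (0:ℝ)..1, ((w i : ℂ) * f (γ i t)) * conj (E j i t) = 0 := by
        rw [← h2, Finset.mul_sum]
        refine Finset.sum_congr rfl fun i _ => ?_
        rw [← intervalIntegral.integral_const_mul, ← intervalIntegral.integral_smul]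
        refine intervalIntegral.integral_congr fun t _ => ?_
        simp only [hE, map_mul, Complex.real_smul]
        ring
      have hθ0 : conj (θ j) ≠ 0 := by
        intro h0
        have := hθ j
        rw [← Complex.norm_conj, h0, norm_zero] at this
        exact zero_ne_one this
      exact (mul_eq_zero.1 h4).resolve_left hθ0
    have h5 := hcomp (fun i t => (w i : ℂ) * f (γ i t))
      (fun i => (memLp_curves hγ hw hfm i).const_mul _) horth
    have h6 : ∀ i, ∀ᵐ t ∂(volume.restrict (Ioc (0:ℝ) 1)), f (γ i t) = 0 := by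
      intro i
      filter_upwards [h5 i] with t ht
      have hwi : (w i : ℂ) ≠ 0 := by exact_mod_cast (hw i).ne'
      exact (mul_eq_zero.1 ht).resolve_left hwi
    have h7 := ae_curves hγ hw hfm.aestronglyMeasurable h6
    exact Lp.ext (h7.trans (Lp.coeFn_zero _ _ _).symm)
  · intro c hc
    classical
    have himg : c.support = (c.support.preimage lam hinj.injOn).image lam := by
      rw [Finset.image_preimage]
      ext l
      simp only [Finset.mem_filter]
      exact ⟨fun h => ⟨h, hc h⟩, fun h => h.1⟩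
    have hsum : ∀ {M : Type} [AddCommMonoid M] (F : Plane → M),
        ∑ l ∈ c.support, F l = ∑ j ∈ c.support.preimage lam hinj.injOn, F (lam j) := by
      intro M _ F
      conv_lhs => rw [himg]
      exact Finset.sum_image fun x _ y _ h => hinj h
    have h1 := hLow (c.support.preimage lam hinj.injOn) (fun j => c (lam j))
    have h2 := hUp (c.support.preimage lam hinj.injOn) (fun j => c (lam j))
    have h3 : coeffSq c = ∑ j ∈ c.support.preimage lam hinj.injOn, ‖c (lam j)‖ ^ 2 :=
      hsum fun l => ‖c l‖ ^ 2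
    have h4 : expSum c
        = fun x => ∑ j ∈ c.support.preimage lam hinj.injOn, c (lam j) * expo (lam j) x := by
      funext x
      exact hsum fun l => c l * expo l x
    rw [h3, h4]
    refine ⟨h1, h2.trans ?_⟩
    exact mul_le_mul_of_nonneg_right (le_max_right _ _)
      (Finset.sum_nonneg fun _ _ => by positivity)

end Curves

end Pool.Agent.Work.MP_9e9244_an
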