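import Mathlib

open MeasureTheory Set
open scoped ENNReal ComplexConjugate

namespace Pool.Agent.Work.MP_9e9244_an

/-- The Euclidean plane. -/
abbrev Plane : Type := EuclideanSpace ℝ (Fin 2)

/-- The exponential `e_l(x) = exp (2 π i ⟨l, x⟩)`. -/
noncomputable def expo (l x : Plane) : ℂ :=
  Complex.exp (2 * Real.pi * Complex.I * ((inner ℝ l x : ℝ) : ℂ))

/-- The exponential sum `∑ c_l e_l` of a finitely supported family `(c_l)`. -/
noncomputable def expSum (c : Plane →₀ ℂ) (x : Plane) : ℂ := ∑ l ∈ c.support, c l * expo l x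

/-- `∑ |c_l|²` for a finitely supported family `(c_l)`. -/
noncomputable def coeffSq (c : Plane →₀ ℂ) : ℝ := ∑ l ∈ c.support, ‖c l‖ ^ 2

/-- `‖f‖² = ∫ |f|² dμ`, the square of the norm of `L²(μ)`. -/
noncomputable def normSq (μ : Measure Plane) (f : Plane → ℂ) : ℝ := ∫ x, ‖f x‖ ^ 2 ∂μ

/-- The linear span of `E(Λ) = {e_l : l ∈ Λ}` is dense in `L²(μ)`. -/
def SpanDense (μ : Measure Plane) (Λ : Set Plane) : Prop :=
  ∀ f : Plane → ℂ, MemLp f 2 μ → ∀ ε : ℝ, 0 < ε →
    ∃ c : Plane →₀ ℂ, (c.support : Set Plane) ⊆ Λ ∧ normSq μ (fun x => f x - expSum c x) < ε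

/-- `A ∑ |c_l|² ≤ ‖∑ c_l e_l‖² ≤ B ∑ |c_l|²` for all finitely supported families on `Λ`. -/
def RieszBounds (μ : Measure Plane) (Λ : Set Plane) (A B : ℝ) : Prop :=
  ∀ c : Plane →₀ ℂ, (c.support : Set Plane) ⊆ Λ →
    A * coeffSq c ≤ normSq μ (expSum c) ∧ normSq μ (expSum c) ≤ B * coeffSq c

/-- `μ` is finite and `E(Λ) = {e_l : l ∈ Λ}` is an exponential Riesz basis for `μ`: `Λ` is
countable, the linear span of `E(Λ)` is dense in `L²(μ)`, and there are `0 < A ≤ B < ∞` with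
`A ∑ |c_l|² ≤ ‖∑ c_l e_l‖² ≤ B ∑ |c_l|²` for all finitely supported families `(c_l)` on `Λ`. -/
def IsExpRieszBasis (μ : Measure Plane) (Λ : Set Plane) : Prop :=
  IsFiniteMeasure μ ∧ Λ.Countable ∧ SpanDense μ Λ ∧
    ∃ A B : ℝ, 0 < A ∧ A ≤ B ∧ RieszBounds μ Λ A B

/-- The length measure on the boundary of `P`: the one-dimensional Hausdorff measure restricted
to the topological boundary of `P`. -/
noncomputable def boundaryLength (P : Set Plane) : Measure Plane :=
  (Measure.hausdorffMeasure 1).restrict (frontier P)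

end Pool.Agent.Work.MP_9e9244_an
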