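import Pool.Agent.Work.MP_9e9244_an.Criterion

open MeasureTheory Set
open scoped ENNReal ComplexConjugate

namespace Pool.Agent.Work.MP_9e9244_an

/-- `e t = exp (2 π i t)`. -/
noncomputable def e (t : ℝ) : ℂ := Complex.exp (2 * Real.pi * Complex.I * (t : ℂ))

theorem e_add (s t : ℝ) : e (s + t) = e s * e t := by
  unfold e
  rw [← Complex.exp_add]
  push_cast
  ring_nf

theorem e_zero : e 0 = 1 := by simp [e]

theorem e_int (n : ℤ) : e n = 1 := by
  unfold e
  rw [show 2 * (Real.pi : ℂ) * Complex.I * ((n : ℝ) : ℂ) = n * (2 * Real.pi * Complex.I) by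
    push_cast; ring]
  exact Complex.exp_int_mul_two_pi_mul_I n

theorem norm_e (t : ℝ) : ‖e t‖ = 1 := by
  unfold e
  rw [show 2 * (Real.pi : ℂ) * Complex.I * (t : ℂ)
    = ((2 * Real.pi * t : ℝ) : ℂ) * Complex.I by push_cast; ring]
  exact Complex.norm_exp_ofReal_mul_I _

theorem e_neg_mul (t : ℝ) : e (-t) * e t = 1 := by
  rw [← e_add]
  simp [e_zero]

theorem conj_e (t : ℝ) : conj (e t) = e (-t) := by
  unfold e
  rw [← Complex.exp_conj]
  congr 1
  rw [map_mul, map_mul, map_mul, Complex.conj_I, Complex.conj_ofReal, Complex.conj_ofReal,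
    map_ofNat]
  push_cast
  ring

@[fun_prop]
theorem continuous_e : Continuous e := by
  unfold e
  fun_prop

theorem expo_eq (l x : Plane) : expo l x = e (inner ℝ l x) := rfl

theorem integral_e (L : ℝ) (hL : 0 < L) (n : ℤ) :
    ∫ x in (0:ℝ)..L, e (n / L * x) = if n = 0 then (L : ℂ) else 0 := by
  split_ifs with h
  · subst h
    simp [e_zero]
  · unfold e
    have hc : (2 * Real.pi * Complex.I * ((n : ℂ) / (L : ℂ))) ≠ 0 := by
      have hL' : (L : ℂ) ≠ 0 := by exact_mod_cast hL.ne'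
      have hn : (n : ℂ) ≠ 0 := by exact_mod_cast h
      have := Complex.two_pi_I_ne_zero
      exact mul_ne_zero this (div_ne_zero hn hL')
    have h1 : ∀ x : ℝ, Complex.exp (2 * Real.pi * Complex.I * ((n / L * x : ℝ) : ℂ))
        = Complex.exp ((2 * Real.pi * Complex.I * ((n : ℂ) / (L : ℂ))) * x) := by
      intro x
      push_cast
      ring_nf
    simp_rw [h1]
    rw [integral_exp_mul_complex hc]
    have h2 : Complex.exp (2 * Real.pi * Complex.I * ((n : ℂ) / (L : ℂ)) * (L : ℂ)) = 1 := by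
      have hL' : (L : ℂ) ≠ 0 := by exact_mod_cast hL.ne'
      rw [show 2 * Real.pi * Complex.I * ((n : ℂ) / (L : ℂ)) * (L : ℂ)
        = n * (2 * Real.pi * Complex.I) by field_simp]
      exact Complex.exp_int_mul_two_pi_mul_I n
    rw [h2]
    simp

/-- Parseval identity for trigonometric polynomials. -/
theorem parseval_finset (L : ℝ) (hL : 0 < L) (s : Finset ℤ) (c : ℤ → ℂ) :
    ∫ x in (0:ℝ)..L, ‖∑ n ∈ s, c n * e (n / L * x)‖ ^ 2 = L * ∑ n ∈ s, ‖c n‖ ^ 2 := by
  have h1 : ∀ x : ℝ, ((‖∑ n ∈ s, c n * e (n / L * x)‖ ^ 2 : ℝ) : ℂ)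
      = ∑ n ∈ s, ∑ m ∈ s, (c n * conj (c m)) * e (((n - m : ℤ) : ℝ) / L * x) := by
    intro x
    push_cast
    rw [← Complex.mul_conj', map_sum, Finset.sum_mul_sum]
    refine Finset.sum_congr rfl fun n _ => Finset.sum_congr rfl fun m _ => ?_
    rw [map_mul, conj_e]
    rw [show (((n : ℝ) - (m : ℝ)) / L * x) = n / L * x + (-(m / L * x)) by ring, e_add]
    ring
  have h2 : ((∫ x in (0:ℝ)..L, ‖∑ n ∈ s, c n * e (n / L * x)‖ ^ 2 : ℝ) : ℂ)
      = ((L * ∑ n ∈ s, ‖c n‖ ^ 2 : ℝ) : ℂ) := by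
    rw [← intervalIntegral.integral_ofReal]
    simp_rw [h1]
    rw [intervalIntegral.integral_finsetSum]
    · have h3 : ∀ n ∈ s, ∫ x in (0:ℝ)..L, ∑ m ∈ s,
          (c n * conj (c m)) * e (((n - m : ℤ) : ℝ) / L * x) = L * (‖c n‖ ^ 2 : ℝ) := by
        intro n hn
        rw [intervalIntegral.integral_finsetSum]
        · simp_rw [intervalIntegral.integral_const_mul, integral_e L hL]
          rw [Finset.sum_eq_single n]
          · simp only [sub_self, if_true]
            rw [Complex.mul_conj']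
            push_cast
            ring
          · intro m _ hm
            rw [if_neg (by omega)]
            simp
          · intro h
            exact absurd hn h
        · intro m _
          apply Continuous.intervalIntegrable
          fun_prop
      rw [Finset.sum_congr rfl h3, ← Finset.mul_sum]
      push_cast
      rfl
    · intro n _
      apply Continuous.intervalIntegrable
      fun_prop
  exact_mod_cast h2

theorem fourierCoeffOn_eq (L : ℝ) (hL : 0 < L) (f : ℝ → ℂ) (n : ℤ) :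
    fourierCoeffOn hL f n = (L : ℂ)⁻¹ * ∫ x in (0:ℝ)..L, f x * conj (e (n / L * x)) := by
  rw [fourierCoeffOn_eq_integral]
  simp only [sub_zero, one_div]
  rw [Complex.real_smul]
  push_cast
  congr 1
  refine intervalIntegral.integral_congr fun x _ => ?_
  simp only [smul_eq_mul]
  rw [fourier_coe_apply, conj_e, mul_comm]
  congr 1
  unfold e
  congr 1
  push_cast
  ring

/-- Parseval identity. -/
theorem hasSum_coeff (L : ℝ) (hL : 0 < L) (f : ℝ → ℂ)
    (hf : MemLp f 2 (volume.restrict (Ioc (0:ℝ) L))) :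
    HasSum (fun n : ℤ => ‖∫ x in (0:ℝ)..L, f x * conj (e (n / L * x))‖ ^ 2)
      (L * ∫ x in (0:ℝ)..L, ‖f x‖ ^ 2) := by
  have h := (hasSum_sq_fourierCoeffOn hL hf).mul_left (L ^ 2)
  simp only [sub_zero] at h
  have h1 : (fun n : ℤ => ‖∫ x in (0:ℝ)..L, f x * conj (e (n / L * x))‖ ^ 2)
      = fun i => L ^ 2 * ‖fourierCoeffOn hL f i‖ ^ 2 := by
    ext n
    rw [fourierCoeffOn_eq L hL, norm_mul, mul_pow, norm_inv, Complex.norm_real,
      Real.norm_of_nonneg hL.le]
    field_simp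
  have h2 : L * ∫ x in (0:ℝ)..L, ‖f x‖ ^ 2 = L ^ 2 * L⁻¹ • ∫ x in (0:ℝ)..L, ‖f x‖ ^ 2 := by
    rw [smul_eq_mul]
    field_simp
  rw [h1, h2]
  exact h

theorem ae_zero_of_integral_sq (L : ℝ) (hL : 0 < L) (f : ℝ → ℂ)
    (hf : MemLp f 2 (volume.restrict (Ioc (0:ℝ) L)))
    (h : ∫ x in (0:ℝ)..L, ‖f x‖ ^ 2 = 0) :
    ∀ᵐ x ∂(volume.restrict (Ioc (0:ℝ) L)), f x = 0 := by
  rw [intervalIntegral.integral_of_le hL.le] at h
  rw [integral_eq_zero_iff_of_nonneg (fun x => by positivity)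
    ((memLp_two_iff_integrable_sq_norm hf.aestronglyMeasurable).1 hf)] at h
  filter_upwards [h] with x hx
  simpa using hx

/-- Completeness of the trigonometric system. -/
theorem ae_zero_of_coeff (L : ℝ) (hL : 0 < L) (f : ℝ → ℂ)
    (hf : MemLp f 2 (volume.restrict (Ioc (0:ℝ) L)))
    (h : ∀ n : ℤ, ∫ x in (0:ℝ)..L, f x * conj (e (n / L * x)) = 0) :
    ∀ᵐ x ∂(volume.restrict (Ioc (0:ℝ) L)), f x = 0 := by
  apply ae_zero_of_integral_sq L hL f hf
  have h1 := hasSum_coeff L hL f hf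
  simp only [h, norm_zero] at h1
  norm_num at h1
  have h2 := h1.unique hasSum_zero
  rcases mul_eq_zero.1 h2 with h3 | h3
  · exact absurd h3 hL.ne'
  · exact h3

end Pool.Agent.Work.MP_9e9244_an
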