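import Pool.Agent.Work.MP_9e9244_an.Criterion

open MeasureTheory Set
open scoped ENNReal ComplexConjugate

namespace Pool.Agent.Work.MP_9e9244_an

/-- The affine parametrisation of the segment from `P` to `Q`. -/
noncomputable def arc (P Q : Plane) (t : ℝ) : Plane := P + t • (Q - P)

theorem continuous_arc (P Q : Plane) : Continuous (arc P Q) := by
  unfold arc
  fun_prop

theorem segment_eq_image_arc (P Q : Plane) : segment ℝ P Q = arc P Q '' Icc (0:ℝ) 1 := by
  rw [segment_eq_image']
  rfl

theorem volume_restrict_Ioc (d : ℝ) (hd : 0 < d) :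
    (volume.restrict (Ioc (0:ℝ) d)) =
      ENNReal.ofReal d • Measure.map (fun t => d * t) (volume.restrict (Ioc (0:ℝ) 1)) := by
  have h1 := Real.smul_map_volume_mul_left (a := d) hd.ne'
  have hm : Measurable fun t : ℝ => d * t := by fun_prop
  have hpre : (fun t : ℝ => d * t) ⁻¹' (Ioc (0:ℝ) d) = Ioc (0:ℝ) 1 := by
    ext t
    simp only [mem_preimage, mem_Ioc]
    constructor
    · rintro ⟨h1, h2⟩
      exact ⟨(mul_pos_iff_of_pos_left hd).1 h1, by nlinarith⟩
    · rintro ⟨h1, h2⟩
      exact ⟨by positivity, by nlinarith⟩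
  rw [abs_of_pos hd] at h1
  calc (volume.restrict (Ioc (0:ℝ) d))
      = (ENNReal.ofReal d • Measure.map (fun t => d * t) volume).restrict (Ioc (0:ℝ) d) := by
        rw [h1]
    _ = ENNReal.ofReal d • (Measure.map (fun t => d * t) volume).restrict (Ioc (0:ℝ) d) := by
        rw [Measure.restrict_smul]
    _ = _ := by
        rw [Measure.restrict_map hm measurableSet_Ioc, hpre]

theorem hausdorff_restrict_segment (P Q : Plane) (h : P ≠ Q) :
    (Measure.hausdorffMeasure 1 : Measure Plane).restrict (segment ℝ P Q) =
      ENNReal.ofReal (dist P Q) • Measure.map (arc P Q) (volume.restrict (Ioc (0:ℝ) 1)) := by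
  set d := dist P Q with hd
  have hdpos : 0 < d := dist_pos.2 h
  have hnorm : ‖Q - P‖ = d := by rw [hd, dist_comm, dist_eq_norm]
  set j : ℝ → Plane := fun s => P + s • (d⁻¹ • (Q - P)) with hj
  have hiso : Isometry j := by
    refine Isometry.of_dist_eq fun s t => ?_
    have h1 : j s - j t = (s - t) • (d⁻¹ • (Q - P)) := by
      simp only [hj, sub_smul]
      abel
    rw [dist_eq_norm, h1, norm_smul, norm_smul, hnorm, norm_inv, Real.norm_eq_abs,
      Real.norm_eq_abs, abs_of_pos hdpos, Real.dist_eq, inv_mul_cancel₀ hdpos.ne', mul_one]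
  have hjc : Continuous j := hiso.continuous
  have h1 := hiso.map_hausdorffMeasure (d := 1) (Or.inl zero_le_one)
  rw [hausdorffMeasure_real] at h1
  have hjarc : ∀ t : ℝ, j (d * t) = arc P Q t := by
    intro t
    simp only [hj, arc, smul_smul]
    congr 2
    field_simp
  have hsub : segment ℝ P Q ⊆ range j := by
    rw [segment_eq_image_arc]
    rintro _ ⟨t, _, rfl⟩
    exact ⟨d * t, hjarc t⟩
  have hmeas : MeasurableSet (segment ℝ P Q) := by
    rw [segment_eq_image_arc]
    exact (isCompact_Icc.image (continuous_arc P Q)).measurableSet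
  have hpre : j ⁻¹' (segment ℝ P Q) = Icc (0:ℝ) d := by
    rw [segment_eq_image_arc]
    ext s
    simp only [mem_preimage, mem_image]
    constructor
    · rintro ⟨t, ht, hts⟩
      rw [← hjarc t] at hts
      have := hiso.injective hts
      rw [← this]
      exact ⟨mul_nonneg hdpos.le ht.1, by nlinarith [ht.2]⟩
    · rintro ⟨hs1, hs2⟩
      refine ⟨s / d, ⟨by positivity, (div_le_one hdpos).2 hs2⟩, ?_⟩
      rw [← hjarc]
      congr 1
      field_simp
  calc (Measure.hausdorffMeasure 1 : Measure Plane).restrict (segment ℝ P Q)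
      = ((Measure.hausdorffMeasure 1 : Measure Plane).restrict (range j)).restrict
          (segment ℝ P Q) := (Measure.restrict_restrict_of_subset hsub).symm
    _ = (Measure.map j volume).restrict (segment ℝ P Q) := by rw [← h1]
    _ = Measure.map j (volume.restrict (Icc (0:ℝ) d)) := by
        rw [Measure.restrict_map hjc.measurable hmeas, hpre]
    _ = Measure.map j (volume.restrict (Ioc (0:ℝ) d)) := by
        rw [Measure.restrict_congr_set (Ioc_ae_eq_Icc (μ := volume) (a := (0:ℝ)) (b := d))]
    _ = ENNReal.ofReal d • Measure.map (arc P Q) (volume.restrict (Ioc (0:ℝ) 1)) := by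
        rw [volume_restrict_Ioc d hdpos, Measure.map_smul,
          Measure.map_map hjc.measurable (by fun_prop)]
        congr 2
        ext1 t
        exact hjarc t

/-- If the boundary of `S` is a union of finitely many segments meeting in at most one point
pairwise, then its length measure is a sum of arc measures. -/
theorem boundaryLength_eq {ι : Type} [Fintype ι] (S : Set Plane) (A B : ι → Plane)
    (hne : ∀ i, A i ≠ B i) (hS : frontier S = ⋃ i, segment ℝ (A i) (B i))
    (hsub : ∀ i j, i ≠ j → (segment ℝ (A i) (B i) ∩ segment ℝ (A j) (B j)).Subsingleton) :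
    boundaryLength S = curveMeasure (fun i => arc (A i) (B i)) (fun i => dist (A i) (B i)) := by
  unfold boundaryLength curveMeasure
  have hnull := Measure.nullSingletonClass_hausdorff Plane (d := 1) one_pos
  rw [hS, Measure.restrict_iUnion_ae]
  · rw [Measure.sum_fintype]
    exact Finset.sum_congr rfl fun i _ => hausdorff_restrict_segment _ _ (hne i)
  · intro i j hij
    exact (hsub i j hij).measure_zero _
  · intro i
    apply MeasurableSet.nullMeasurableSet
    rw [segment_eq_image_arc]
    exact (isCompact_Icc.image (continuous_arc _ _)).measurableSet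

theorem isFiniteMeasure_curveMeasure {ι : Type} [Fintype ι] (γ : ι → ℝ → Plane) (w : ι → ℝ) :
    IsFiniteMeasure (curveMeasure γ w) := by
  unfold curveMeasure
  rw [← Measure.sum_fintype]
  constructor
  rw [Measure.sum_apply _ MeasurableSet.univ]
  rw [tsum_fintype]
  refine ENNReal.sum_lt_top.2 fun i _ => ?_
  rw [Measure.smul_apply, smul_eq_mul]
  exact ENNReal.mul_lt_top ENNReal.ofReal_lt_top (measure_lt_top _ _)

end Pool.Agent.Work.MP_9e9244_an
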