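import Pool.Agent.Work.MP_9e9244_an.Fourier

open MeasureTheory Set
open scoped ENNReal ComplexConjugate

namespace Pool.Agent.Work.MP_9e9244_an

/-- First coordinate of the frequency. -/
noncomputable def freqA (j : Fin 4 × ℤ) : ℝ :=
  ![(j.2 : ℝ), (j.2 : ℝ), (j.2 : ℝ) + 1 / 2, (j.2 : ℝ) + 1 / 2] j.1

/-- Second coordinate of the frequency. -/
noncomputable def freqB (j : Fin 4 × ℤ) : ℝ :=
  ![(j.2 : ℝ), (j.2 : ℝ) + 1 / 2, 1 / 2 - (j.2 : ℝ), 1 - (j.2 : ℝ)] j.1

/-- The exponentials on the four edges of a parallelogram. -/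
noncomputable def parE (j : Fin 4 × ℤ) (i : Fin 4) (t : ℝ) : ℂ :=
  e (![freqA j * t, freqB j + freqA j * t, freqB j * t, freqA j + freqB j * t] i)

/-- `w t = e (t / 2)`. -/
noncomputable def w2 (t : ℝ) : ℂ := e (t / 2)

theorem continuous_w2 : Continuous w2 := by
  unfold w2
  fun_prop

theorem norm_w2 (t : ℝ) : ‖w2 t‖ = 1 := norm_e _

theorem e_half : e (1 / 2) = -1 := by
  unfold e
  have : 2 * (Real.pi : ℂ) * Complex.I * ((1 / 2 : ℝ) : ℂ) = Real.pi * Complex.I := by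
    push_cast
    ring
  rw [this, Complex.exp_pi_mul_I]

theorem w2_one_sub (t : ℝ) : w2 (1 - t) = -conj (w2 t) := by
  unfold w2
  rw [conj_e, show (1 - t) / 2 = 1 / 2 + -(t / 2) by ring, e_add, e_half]
  ring

theorem w2_mul_conj (t : ℝ) : w2 t * conj (w2 t) = 1 := by
  rw [Complex.mul_conj', norm_w2]
  norm_num

theorem e_int_mul_one_sub (k : ℤ) (t : ℝ) : e (-(k * t)) = e (k * (1 - t)) := by
  rw [show (k : ℝ) * (1 - t) = (k : ℝ) + -(k * t) by ring, e_add, e_int, one_mul]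

theorem parE_zero (k : ℤ) (t : ℝ) :
    parE (0, k) 0 t = e (k * t) ∧ parE (0, k) 1 t = e (k * t) ∧
    parE (0, k) 2 t = e (k * t) ∧ parE (0, k) 3 t = e (k * t) := by
  refine ⟨rfl, ?_, rfl, ?_⟩
  · change e ((k : ℝ) + k * t) = _
    rw [e_add, e_int, one_mul]
  · change e ((k : ℝ) + k * t) = _
    rw [e_add, e_int, one_mul]

theorem parE_one (k : ℤ) (t : ℝ) :
    parE (1, k) 0 t = e (k * t) ∧ parE (1, k) 1 t = -e (k * t) ∧
    parE (1, k) 2 t = w2 t * e (k * t) ∧ parE (1, k) 3 t = w2 t * e (k * t) := by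
  refine ⟨rfl, ?_, ?_, ?_⟩
  · change e ((k : ℝ) + 1 / 2 + k * t) = _
    rw [e_add, e_add, e_int, e_half]
    ring
  · change e (((k : ℝ) + 1 / 2) * t) = _
    rw [w2, ← e_add]
    congr 1
    ring
  · change e ((k : ℝ) + ((k : ℝ) + 1 / 2) * t) = _
    rw [e_add, e_int, w2, ← e_add, one_mul]
    congr 1
    ring

theorem parE_two (k : ℤ) (t : ℝ) :
    parE (2, k) 0 t = w2 t * e (k * t) ∧ parE (2, k) 1 t = -(w2 t * e (k * t)) ∧
    parE (2, k) 2 t = w2 t * e (k * (1 - t)) ∧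
    parE (2, k) 3 t = -(w2 t * e (k * (1 - t))) := by
  refine ⟨?_, ?_, ?_, ?_⟩
  · change e (((k : ℝ) + 1 / 2) * t) = _
    rw [w2, ← e_add]
    congr 1
    ring
  · change e (1 / 2 - (k : ℝ) + ((k : ℝ) + 1 / 2) * t) = _
    rw [show 1 / 2 - (k : ℝ) + ((k : ℝ) + 1 / 2) * t = 1 / 2 + ((-k : ℤ) : ℝ) + (t / 2 + k * t) by
      push_cast; ring, e_add, e_add, e_int, e_half, e_add, w2]
    ring
  · change e ((1 / 2 - (k : ℝ)) * t) = _
    rw [← e_int_mul_one_sub, w2, ← e_add]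
    congr 1
    ring
  · change e ((k : ℝ) + 1 / 2 + (1 / 2 - (k : ℝ)) * t) = _
    rw [← e_int_mul_one_sub, w2, ← e_add,
      show (k : ℝ) + 1 / 2 + (1 / 2 - (k : ℝ)) * t = k + 1 / 2 + (t / 2 + -(k * t)) by ring,
      e_add, e_add, e_int, e_half]
    ring

theorem parE_three (k : ℤ) (t : ℝ) :
    parE (3, k) 0 t = w2 t * e (k * t) ∧ parE (3, k) 1 t = w2 t * e (k * t) ∧
    parE (3, k) 2 t = w2 t ^ 2 * e (k * (1 - t)) ∧
    parE (3, k) 3 t = -(w2 t ^ 2 * e (k * (1 - t))) := by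
  have hsq : w2 t ^ 2 = e t := by
    rw [pow_two, w2, ← e_add]
    congr 1
    ring
  refine ⟨?_, ?_, ?_, ?_⟩
  · change e (((k : ℝ) + 1 / 2) * t) = _
    rw [w2, ← e_add]
    congr 1
    ring
  · change e (1 - (k : ℝ) + ((k : ℝ) + 1 / 2) * t) = _
    rw [show 1 - (k : ℝ) + ((k : ℝ) + 1 / 2) * t = ((1 - k : ℤ) : ℝ) + (t / 2 + k * t) by
      push_cast; ring, e_add, e_int, e_add, w2]
    ring
  · change e ((1 - (k : ℝ)) * t) = _
    rw [← e_int_mul_one_sub, hsq, ← e_add]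
    congr 1
    ring
  · change e ((k : ℝ) + 1 / 2 + (1 - (k : ℝ)) * t) = _
    rw [← e_int_mul_one_sub, hsq, ← e_add,
      show (k : ℝ) + 1 / 2 + (1 - (k : ℝ)) * t = k + 1 / 2 + (t + -(k * t)) by ring,
      e_add, e_add, e_int, e_half]
    ring

/-- Reduction of a sum over a finite set of indices to a sum over a product. -/
theorem sum_reduce {M : Type} [AddCommMonoid M] (s : Finset (Fin 4 × ℤ)) (F : Fin 4 × ℤ → M)
    (G : Fin 4 × ℤ → M) (hG : ∀ j ∈ s, G j = F j) (hG' : ∀ j ∉ s, G j = 0) :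
    ∑ j ∈ s, F j = ∑ κ : Fin 4, ∑ k ∈ s.image Prod.snd, G (κ, k) := by
  classical
  rw [← Finset.sum_product']
  rw [← Finset.sum_congr rfl hG]
  apply Finset.sum_subset
  · intro j hj
    simp only [Finset.mem_product, Finset.mem_univ, true_and]
    exact Finset.mem_image_of_mem _ hj
  · intro j _ hj
    exact hG' j hj

section poly

variable (s : Finset (Fin 4 × ℤ)) (c : Fin 4 × ℤ → ℂ)

open Classical in
/-- The four trigonometric polynomials. -/
noncomputable def gpol (κ : Fin 4) (x : ℝ) : ℂ :=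
  ∑ k ∈ s.image Prod.snd, (if (κ, k) ∈ s then c (κ, k) else 0) * e (k * x)

theorem continuous_gpol (κ : Fin 4) : Continuous (gpol s c κ) := by
  unfold gpol
  fun_prop

theorem gpol_mul (κ : Fin 4) (u : ℂ) (x : ℝ) :
    ∑ k ∈ s.image Prod.snd, (open Classical in if (κ, k) ∈ s then c (κ, k) else 0)
      * (u * e (k * x)) = u * gpol s c κ x := by
  unfold gpol
  rw [Finset.mul_sum]
  exact Finset.sum_congr rfl fun k _ => by ring

theorem gpol_mul_neg (κ : Fin 4) (u : ℂ) (x : ℝ) :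
    ∑ k ∈ s.image Prod.snd, (open Classical in if (κ, k) ∈ s then c (κ, k) else 0)
      * (-(u * e (k * x))) = -(u * gpol s c κ x) := by
  unfold gpol
  rw [Finset.mul_sum, ← Finset.sum_neg_distrib]
  exact Finset.sum_congr rfl fun k _ => by ring

theorem gpol_one (κ : Fin 4) (x : ℝ) :
    ∑ k ∈ s.image Prod.snd, (open Classical in if (κ, k) ∈ s then c (κ, k) else 0)
      * (e (k * x)) = gpol s c κ x := rfl

theorem gpol_neg (κ : Fin 4) (x : ℝ) :
    ∑ k ∈ s.image Prod.snd, (open Classical in if (κ, k) ∈ s then c (κ, k) else 0)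
      * (-e (k * x)) = -gpol s c κ x := by
  unfold gpol
  rw [← Finset.sum_neg_distrib]
  exact Finset.sum_congr rfl fun k _ => by ring

theorem integral_gpol :
    ∑ κ : Fin 4, ∫ x in (0:ℝ)..1, ‖gpol s c κ x‖ ^ 2 = ∑ j ∈ s, ‖c j‖ ^ 2 := by
  classical
  rw [sum_reduce s (fun j => ‖c j‖ ^ 2) (fun j => ‖if j ∈ s then c j else 0‖ ^ 2)
    (fun j hj => by simp [hj]) (fun j hj => by simp [hj])]
  refine Finset.sum_congr rfl fun κ _ => ?_
  have h := parseval_finset 1 one_pos (s.image Prod.snd)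
    (fun k => if (κ, k) ∈ s then c (κ, k) else 0)
  simp only [div_one, one_mul] at h
  rw [← h]
  unfold gpol
  refine intervalIntegral.integral_congr fun x _ => ?_
  simp only

theorem sum_parE (i : Fin 4) (t : ℝ) :
    ∑ j ∈ s, c j * parE j i t =
      ∑ κ : Fin 4, ∑ k ∈ s.image Prod.snd,
        (open Classical in if (κ, k) ∈ s then c (κ, k) else 0) * parE (κ, k) i t := by
  classical
  rw [sum_reduce s (fun j => c j * parE j i t)
    (fun j => (if j ∈ s then c j else 0) * parE j i t)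
    (fun j hj => by simp [hj]) (fun j hj => by simp [hj])]

theorem edge_zero (t : ℝ) : ∑ j ∈ s, c j * parE j 0 t =
    gpol s c 0 t + gpol s c 1 t + w2 t * gpol s c 2 t + w2 t * gpol s c 3 t := by
  rw [sum_parE, Fin.sum_univ_four]
  simp only [(parE_zero _ t).1, (parE_one _ t).1, (parE_two _ t).1, (parE_three _ t).1,
    gpol_one, gpol_mul]

theorem edge_one (t : ℝ) : ∑ j ∈ s, c j * parE j 1 t =
    gpol s c 0 t - gpol s c 1 t - w2 t * gpol s c 2 t + w2 t * gpol s c 3 t := by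
  rw [sum_parE, Fin.sum_univ_four]
  simp only [(parE_zero _ t).2.1, (parE_one _ t).2.1, (parE_two _ t).2.1, (parE_three _ t).2.1,
    gpol_one, gpol_mul, gpol_neg, gpol_mul_neg]
  ring

theorem edge_two (t : ℝ) : ∑ j ∈ s, c j * parE j 2 t =
    gpol s c 0 t + w2 t * gpol s c 1 t + w2 t * gpol s c 2 (1 - t)
      + w2 t ^ 2 * gpol s c 3 (1 - t) := by
  rw [sum_parE, Fin.sum_univ_four]
  simp only [(parE_zero _ t).2.2.1, (parE_one _ t).2.2.1, (parE_two _ t).2.2.1,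
    (parE_three _ t).2.2.1, gpol_one, gpol_mul]

theorem edge_three (t : ℝ) : ∑ j ∈ s, c j * parE j 3 t =
    gpol s c 0 t + w2 t * gpol s c 1 t - w2 t * gpol s c 2 (1 - t)
      - w2 t ^ 2 * gpol s c 3 (1 - t) := by
  rw [sum_parE, Fin.sum_univ_four]
  simp only [(parE_zero _ t).2.2.2, (parE_one _ t).2.2.2, (parE_two _ t).2.2.2,
    (parE_three _ t).2.2.2, gpol_one, gpol_mul, gpol_mul_neg]
  ring

theorem integral_reflect (F : ℝ → ℝ) :
    ∫ x in (0:ℝ)..1, F (1 - x) = ∫ x in (0:ℝ)..1, F x := by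
  rw [intervalIntegral.integral_comp_sub_left]
  norm_num

theorem norm_add_three_sq (a b c d : ℂ) :
    ‖a + b + c + d‖ ^ 2 ≤ 4 * (‖a‖ ^ 2 + ‖b‖ ^ 2 + ‖c‖ ^ 2 + ‖d‖ ^ 2) := by
  have h1 : ‖a + b + c + d‖ ≤ ‖a‖ + ‖b‖ + ‖c‖ + ‖d‖ := by
    refine (norm_add_le _ _).trans ?_
    gcongr
    refine (norm_add_le _ _).trans ?_
    gcongr
    exact norm_add_le _ _
  have h2 : ‖a + b + c + d‖ ^ 2 ≤ (‖a‖ + ‖b‖ + ‖c‖ + ‖d‖) ^ 2 :=
    pow_le_pow_left₀ (norm_nonneg _) h1 2
  nlinarith [sq_nonneg (‖a‖ - ‖b‖), sq_nonneg (‖a‖ - ‖c‖), sq_nonneg (‖a‖ - ‖d‖),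
    sq_nonneg (‖b‖ - ‖c‖), sq_nonneg (‖b‖ - ‖d‖), sq_nonneg (‖c‖ - ‖d‖)]

theorem par_upper :
    ∑ i : Fin 4, ∫ t in (0:ℝ)..1, ‖∑ j ∈ s, c j * parE j i t‖ ^ 2 ≤
      16 * ∑ j ∈ s, ‖c j‖ ^ 2 := by
  have hg : ∀ κ, Continuous (gpol s c κ) := continuous_gpol s c
  have hw : Continuous w2 := continuous_w2
  have hii : ∀ κ, IntervalIntegrable (fun x => ‖gpol s c κ x‖ ^ 2) volume 0 1 := fun κ =>
    ((hg κ).norm.pow 2).intervalIntegrable _ _
  have hii' : ∀ κ, IntervalIntegrable (fun x => ‖gpol s c κ (1 - x)‖ ^ 2) volume 0 1 := by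
    intro κ
    apply Continuous.intervalIntegrable
    have := hg κ
    fun_prop
  have hI := integral_gpol s c
  rw [Fin.sum_univ_four] at hI
  have hr := fun κ => integral_reflect fun x => ‖gpol s c κ x‖ ^ 2
  have hn : ∀ t, ‖w2 t‖ = 1 := norm_w2
  have g0 := hg 0
  have g1 := hg 1
  have g2 := hg 2
  have g3 := hg 3
  have b0 : ∫ t in (0:ℝ)..1, ‖∑ j ∈ s, c j * parE j 0 t‖ ^ 2 ≤ 4 * ∑ j ∈ s, ‖c j‖ ^ 2 := by
    simp only [edge_zero]
    rw [← hI, ← intervalIntegral.integral_add (hii 0) (hii 1),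
      ← intervalIntegral.integral_add ((hii 0).add (hii 1)) (hii 2),
      ← intervalIntegral.integral_add (((hii 0).add (hii 1)).add (hii 2)) (hii 3),
      ← intervalIntegral.integral_const_mul]
    apply intervalIntegral.integral_mono_on zero_le_one
    · apply Continuous.intervalIntegrable
      fun_prop
    · apply Continuous.intervalIntegrable
      fun_prop
    · intro x _
      refine (norm_add_three_sq _ _ _ _).trans (le_of_eq ?_)
      simp only [norm_mul, hn, one_mul]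
  have b1 : ∫ t in (0:ℝ)..1, ‖∑ j ∈ s, c j * parE j 1 t‖ ^ 2 ≤ 4 * ∑ j ∈ s, ‖c j‖ ^ 2 := by
    simp only [edge_one]
    rw [← hI, ← intervalIntegral.integral_add (hii 0) (hii 1),
      ← intervalIntegral.integral_add ((hii 0).add (hii 1)) (hii 2),
      ← intervalIntegral.integral_add (((hii 0).add (hii 1)).add (hii 2)) (hii 3),
      ← intervalIntegral.integral_const_mul]
    apply intervalIntegral.integral_mono_on zero_le_one
    · apply Continuous.intervalIntegrable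
      fun_prop
    · apply Continuous.intervalIntegrable
      fun_prop
    · intro x _
      rw [sub_eq_add_neg, sub_eq_add_neg]
      refine (norm_add_three_sq _ _ _ _).trans (le_of_eq ?_)
      simp only [norm_neg, norm_mul, hn, one_mul]
  have b2 : ∫ t in (0:ℝ)..1, ‖∑ j ∈ s, c j * parE j 2 t‖ ^ 2 ≤ 4 * ∑ j ∈ s, ‖c j‖ ^ 2 := by
    simp only [edge_two]
    rw [← hI, ← hr 2, ← hr 3, ← intervalIntegral.integral_add (hii 0) (hii 1),
      ← intervalIntegral.integral_add ((hii 0).add (hii 1)) (hii' 2),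
      ← intervalIntegral.integral_add (((hii 0).add (hii 1)).add (hii' 2)) (hii' 3),
      ← intervalIntegral.integral_const_mul]
    apply intervalIntegral.integral_mono_on zero_le_one
    · apply Continuous.intervalIntegrable
      fun_prop
    · apply Continuous.intervalIntegrable
      fun_prop
    · intro x _
      refine (norm_add_three_sq _ _ _ _).trans (le_of_eq ?_)
      simp only [norm_mul, norm_pow, hn, one_mul, one_pow]
  have b3 : ∫ t in (0:ℝ)..1, ‖∑ j ∈ s, c j * parE j 3 t‖ ^ 2 ≤ 4 * ∑ j ∈ s, ‖c j‖ ^ 2 := by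
    simp only [edge_three]
    rw [← hI, ← hr 2, ← hr 3, ← intervalIntegral.integral_add (hii 0) (hii 1),
      ← intervalIntegral.integral_add ((hii 0).add (hii 1)) (hii' 2),
      ← intervalIntegral.integral_add (((hii 0).add (hii 1)).add (hii' 2)) (hii' 3),
      ← intervalIntegral.integral_const_mul]
    apply intervalIntegral.integral_mono_on zero_le_one
    · apply Continuous.intervalIntegrable
      fun_prop
    · apply Continuous.intervalIntegrable
      fun_prop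
    · intro x _
      rw [sub_eq_add_neg, sub_eq_add_neg]
      refine (norm_add_three_sq _ _ _ _).trans (le_of_eq ?_)
      simp only [norm_neg, norm_mul, norm_pow, hn, one_mul, one_pow]
  rw [Fin.sum_univ_four]
  linarith

/-- Pointwise inversion. -/
theorem pointwise_lower (w w' g0 g1 g2 g3 P0 P1 P2 P3 T2 T3 : ℂ) (hw : ‖w‖ = 1)
    (hw' : ‖w'‖ = 1) (hww : w * w' = 1)
    (h0 : P0 = g0 + g1 + w * g2 + w * g3) (h1 : P1 = g0 - g1 - w * g2 + w * g3)
    (h2 : P2 + P3 = 2 * (g0 + w * g1)) (h3 : T2 - T3 = 2 * (-w' * g2 + w' ^ 2 * g3)) :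
    ‖g0‖ ^ 2 + ‖g1‖ ^ 2 + ‖g2‖ ^ 2 + ‖g3‖ ^ 2 ≤
      4 * (‖P0‖ ^ 2 + ‖P1‖ ^ 2) + 3 * (‖P2‖ ^ 2 + ‖P3‖ ^ 2) + 3 * (‖T2‖ ^ 2 + ‖T3‖ ^ 2) := by
  obtain ⟨p, hp⟩ : ∃ p : ℂ, p = g0 + w * g3 := ⟨_, rfl⟩
  obtain ⟨q, hq⟩ : ∃ q : ℂ, q = g1 + w * g2 := ⟨_, rfl⟩
  obtain ⟨r, hr⟩ : ∃ r : ℂ, r = g0 + w * g1 := ⟨_, rfl⟩
  obtain ⟨s, hs⟩ : ∃ s : ℂ, s = -w' * g2 + w' ^ 2 * g3 := ⟨_, rfl⟩
  have e3 : 2 * g3 = w' * p + w' * w * q + -(w' * r) + w ^ 2 * s := by
    rw [hp, hq, hr, hs]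
    linear_combination (-(w * w' + 2) * g3) * hww
  have e2 : 2 * w * g2 = w' * p + w' * w * q + -(w' * r) + -(w ^ 2 * s) := by
    rw [hp, hq, hr, hs]
    linear_combination (-2 * w * g2 + w * w' * g3) * hww
  have n3 := norm_add_three_sq (w' * p) (w' * w * q) (-(w' * r)) (w ^ 2 * s)
  have n2 := norm_add_three_sq (w' * p) (w' * w * q) (-(w' * r)) (-(w ^ 2 * s))
  rw [← e3] at n3
  rw [← e2] at n2
  simp only [norm_mul, norm_neg, norm_pow, hw, hw', Complex.norm_ofNat, one_mul, mul_one,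
    one_pow] at n2 n3
  have ep : g0 = p + -(w * g3) := by rw [hp]; ring
  have eq : g1 = q + -(w * g2) := by rw [hq]; ring
  have np : ‖g0‖ ^ 2 ≤ 2 * ‖p‖ ^ 2 + 2 * ‖g3‖ ^ 2 := by
    have h := norm_add_le p (-(w * g3))
    rw [← ep, norm_neg, norm_mul, hw, one_mul] at h
    have h' := pow_le_pow_left₀ (norm_nonneg _) h 2
    nlinarith [sq_nonneg (‖p‖ - ‖g3‖)]
  have nq : ‖g1‖ ^ 2 ≤ 2 * ‖q‖ ^ 2 + 2 * ‖g2‖ ^ 2 := by
    have h := norm_add_le q (-(w * g2))
    rw [← eq, norm_neg, norm_mul, hw, one_mul] at h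
    have h' := pow_le_pow_left₀ (norm_nonneg _) h 2
    nlinarith [sq_nonneg (‖q‖ - ‖g2‖)]
  have P01 := parallelogram_law_with_norm ℂ P0 P1
  have f0 : P0 + P1 = 2 * p := by rw [h0, h1, hp]; ring
  have f1 : P0 - P1 = 2 * q := by rw [h0, h1, hq]; ring
  have f2 : P2 + P3 = 2 * r := by rw [h2, hr]
  have f3 : T2 - T3 = 2 * s := by rw [h3, hs]
  rw [f0, f1, norm_mul, norm_mul, Complex.norm_ofNat] at P01
  have nr : ‖r‖ ^ 2 ≤ 1 / 2 * (‖P2‖ ^ 2 + ‖P3‖ ^ 2) := by
    have h := norm_add_le P2 P3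
    rw [f2, norm_mul, Complex.norm_ofNat] at h
    have h' := pow_le_pow_left₀ (by positivity) h 2
    nlinarith [sq_nonneg (‖P2‖ - ‖P3‖)]
  have ns : ‖s‖ ^ 2 ≤ 1 / 2 * (‖T2‖ ^ 2 + ‖T3‖ ^ 2) := by
    have h := norm_sub_le T2 T3
    rw [f3, norm_mul, Complex.norm_ofNat] at h
    have h' := pow_le_pow_left₀ (by positivity) h 2
    nlinarith [sq_nonneg (‖T2‖ - ‖T3‖)]
  nlinarith

theorem par_lower :
    (1 / 6) * ∑ j ∈ s, ‖c j‖ ^ 2 ≤
      ∑ i : Fin 4, ∫ t in (0:ℝ)..1, ‖∑ j ∈ s, c j * parE j i t‖ ^ 2 := by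
  have hg : ∀ κ, Continuous (gpol s c κ) := continuous_gpol s c
  have hw : Continuous w2 := continuous_w2
  have hii : ∀ κ, IntervalIntegrable (fun x => ‖gpol s c κ x‖ ^ 2) volume 0 1 := fun κ =>
    ((hg κ).norm.pow 2).intervalIntegrable _ _
  have hI := integral_gpol s c
  rw [Fin.sum_univ_four] at hI
  have hE : ∀ i, Continuous fun t => ∑ j ∈ s, c j * parE j i t := by
    intro i
    unfold parE
    refine continuous_finsetSum _ fun j _ => continuous_const.mul (continuous_e.comp ?_)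
    fin_cases i
    · exact continuous_const.mul continuous_id
    · exact continuous_const.add (continuous_const.mul continuous_id)
    · exact continuous_const.mul continuous_id
    · exact continuous_const.add (continuous_const.mul continuous_id)
  have hEi : ∀ i, IntervalIntegrable (fun t => ‖∑ j ∈ s, c j * parE j i t‖ ^ 2) volume 0 1 :=
    fun i => ((hE i).norm.pow 2).intervalIntegrable _ _
  have hEr : ∀ i, Continuous fun t => ∑ j ∈ s, c j * parE j i (1 - t) := by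
    intro i
    have := (hE i).comp (continuous_const.sub continuous_id : Continuous fun t : ℝ => (1:ℝ) - t)
    exact this
  have hEri : ∀ i, IntervalIntegrable (fun t => ‖∑ j ∈ s, c j * parE j i (1 - t)‖ ^ 2)
      volume 0 1 := fun i => ((hEr i).norm.pow 2).intervalIntegrable _ _
  have hr := fun i => integral_reflect fun x => ‖∑ j ∈ s, c j * parE j i x‖ ^ 2
  have hnn : ∀ i, 0 ≤ ∫ t in (0:ℝ)..1, ‖∑ j ∈ s, c j * parE j i t‖ ^ 2 := fun i =>
    intervalIntegral.integral_nonneg zero_le_one fun _ _ => by positivity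
  have main : ∑ j ∈ s, ‖c j‖ ^ 2 ≤
      4 * ((∫ t in (0:ℝ)..1, ‖∑ j ∈ s, c j * parE j 0 t‖ ^ 2)
        + ∫ t in (0:ℝ)..1, ‖∑ j ∈ s, c j * parE j 1 t‖ ^ 2)
      + 3 * ((∫ t in (0:ℝ)..1, ‖∑ j ∈ s, c j * parE j 2 t‖ ^ 2)
        + ∫ t in (0:ℝ)..1, ‖∑ j ∈ s, c j * parE j 3 t‖ ^ 2)
      + 3 * ((∫ t in (0:ℝ)..1, ‖∑ j ∈ s, c j * parE j 2 (1 - t)‖ ^ 2)
        + ∫ t in (0:ℝ)..1, ‖∑ j ∈ s, c j * parE j 3 (1 - t)‖ ^ 2) := by
    rw [← hI, ← intervalIntegral.integral_add (hii 0) (hii 1),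
      ← intervalIntegral.integral_add ((hii 0).add (hii 1)) (hii 2),
      ← intervalIntegral.integral_add (((hii 0).add (hii 1)).add (hii 2)) (hii 3),
      ← intervalIntegral.integral_add (hEi 0) (hEi 1),
      ← intervalIntegral.integral_add (hEi 2) (hEi 3),
      ← intervalIntegral.integral_add (hEri 2) (hEri 3),
      ← intervalIntegral.integral_const_mul, ← intervalIntegral.integral_const_mul,
      ← intervalIntegral.integral_const_mul,
      ← intervalIntegral.integral_add (((hEi 0).add (hEi 1)).const_mul _)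
        (((hEi 2).add (hEi 3)).const_mul _),
      ← intervalIntegral.integral_add ((((hEi 0).add (hEi 1)).const_mul _).add
        (((hEi 2).add (hEi 3)).const_mul _)) (((hEri 2).add (hEri 3)).const_mul _)]
    apply intervalIntegral.integral_mono_on zero_le_one
    · exact (((hii 0).add (hii 1)).add (hii 2)).add (hii 3)
    · exact ((((hEi 0).add (hEi 1)).const_mul _).add
        (((hEi 2).add (hEi 3)).const_mul _)).add (((hEri 2).add (hEri 3)).const_mul _)
    · intro x _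
      refine pointwise_lower (w2 x) (conj (w2 x)) _ _ _ _ _ _ _ _ _ _ (norm_w2 x)
        (by rw [Complex.norm_conj]; exact norm_w2 x) (w2_mul_conj x) (edge_zero s c x)
        (edge_one s c x) ?_ ?_
      · rw [edge_two, edge_three]
        ring
      · rw [edge_two, edge_three, w2_one_sub, show 1 - (1 - x) = x by ring]
        ring
  rw [hr 2, hr 3] at main
  rw [Fin.sum_univ_four]
  have h0 := hnn 0
  have h1 := hnn 1
  linarith

end poly

end Pool.Agent.Work.MP_9e9244_an
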