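import Pool.Agent.Work.MP_9e9244_an.Fourier

open MeasureTheory Set
open scoped ENNReal ComplexConjugate

namespace Pool.Agent.Work.MP_9e9244_an

/-- The primitive cube root of unity `exp (2 π i / 3)`. -/
noncomputable def om : ℂ := e (1 / 3)

theorem om_pow_three : om ^ 3 = 1 := by
  unfold om
  rw [pow_succ, pow_two, ← e_add, ← e_add]
  have : (1 / 3 + 1 / 3 + 1 / 3 : ℝ) = ((1 : ℤ) : ℝ) := by norm_num
  rw [this, e_int]

theorem om_ne_one : om ≠ 1 := by
  unfold om e
  intro h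
  rw [Complex.exp_eq_one_iff] at h
  obtain ⟨n, hn⟩ := h
  have h1 := Complex.two_pi_I_ne_zero
  have h2 : ((1 / 3 : ℝ) : ℂ) = n := by
    apply mul_left_cancel₀ h1
    rw [hn]
    ring
  have h3 : (1 / 3 : ℝ) = n := by exact_mod_cast h2
  have h4 : (1 : ℝ) = 3 * n := by linarith
  have h5 : (1 : ℤ) = 3 * n := by exact_mod_cast h4
  omega

theorem om_sum : 1 + om + om ^ 2 = 0 := by
  have h1 : (om - 1) * (1 + om + om ^ 2) = 0 := by
    have := om_pow_three
    linear_combination this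
  exact (mul_eq_zero.1 h1).resolve_left (sub_ne_zero.2 om_ne_one)

theorem norm_om : ‖om‖ = 1 := norm_e _

theorem conj_om : conj om = om ^ 2 := by
  have h1 : om * conj om = 1 := by
    rw [Complex.mul_conj', norm_om]
    norm_num
  have h2 := om_pow_three
  have h3 : om ≠ 0 := by
    intro h
    rw [h] at h1
    simp at h1
  apply mul_left_cancel₀ h3
  rw [h1]
  linear_combination -h2

theorem conj_om_sq : conj (om ^ 2) = om := by
  rw [map_pow, conj_om]
  have := om_pow_three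
  linear_combination om * this

theorem e_int_div_three (n : ℤ) :
    e ((n : ℝ) / 3) = om ^ (n % 3).toNat := by
  have h1 : (n : ℝ) / 3 = ((n / 3 : ℤ) : ℝ) + (((n % 3).toNat : ℕ) : ℝ) * (1 / 3) := by
    have h2 : ((n % 3).toNat : ℤ) = n % 3 := Int.toNat_of_nonneg (by omega)
    have h3 : (((n % 3).toNat : ℕ) : ℝ) = ((n % 3 : ℤ) : ℝ) := by exact_mod_cast h2
    rw [h3]
    have h4 : (n : ℝ) = 3 * ((n / 3 : ℤ) : ℝ) + ((n % 3 : ℤ) : ℝ) := by
      exact_mod_cast (Int.mul_ediv_add_emod n 3).symm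
    linarith
  have h5 : ∀ m : ℕ, e ((m : ℝ) * (1 / 3)) = om ^ m := by
    intro m
    induction m with
    | zero => simp [e_zero]
    | succ m ih =>
      rw [pow_succ, ← ih]
      unfold om
      rw [← e_add]
      push_cast
      ring_nf
  rw [h1, e_add, e_int, h5, one_mul]

/-- Plancherel identity for a twisted discrete Fourier transform of order three. -/
theorem dft_plancherel (p0 p1 p2 q0 q1 q2 : ℂ) :
    (p0 + om * p1 + om * p2) * conj (q0 + om * q1 + om * q2)
      + (p0 + p1 + om ^ 2 * p2) * conj (q0 + q1 + om ^ 2 * q2)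
      + (p0 + om ^ 2 * p1 + p2) * conj (q0 + om ^ 2 * q1 + q2)
      = 3 * (p0 * conj q0 + p1 * conj q1 + p2 * conj q2) := by
  simp only [map_add, map_mul, conj_om_sq, conj_om]
  have h := om_sum
  have h3 := om_pow_three
  linear_combination (p0 * conj q1 + p1 * conj q0 + p0 * conj q2 + p2 * conj q0
      + p1 * conj q2 + p2 * conj q1) * h
    + (2 * p1 * conj q1 + 2 * p2 * conj q2 + p1 * conj q2 + p2 * conj q1) * h3

theorem dft_norm (p0 p1 p2 : ℂ) :
    ‖p0 + om * p1 + om * p2‖ ^ 2 + ‖p0 + p1 + om ^ 2 * p2‖ ^ 2 + ‖p0 + om ^ 2 * p1 + p2‖ ^ 2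
      = 3 * (‖p0‖ ^ 2 + ‖p1‖ ^ 2 + ‖p2‖ ^ 2) := by
  have h := dft_plancherel p0 p1 p2 p0 p1 p2
  simp only [Complex.mul_conj'] at h
  exact_mod_cast h

/-- `0, 1, -1` according to the residue modulo three. -/
noncomputable def eps (m : ℤ) : ℝ := if m % 3 = 0 then 0 else if m % 3 = 1 then 1 else -1

/-- The restrictions of the exponentials to the three edges of a triangle. -/
noncomputable def triE (n : ℤ) (i : Fin 3) (t : ℝ) : ℂ :=
  e ((n / 3 : ℝ) * (eps (((i + 1 : Fin 3) : ℕ) - n) * (1 - t)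
    + eps (((i + 2 : Fin 3) : ℕ) - n) * t))

/-- unimodular normalisation -/
noncomputable def tria (n : ℤ) : ℂ := if n % 3 = 1 then 1 else om

theorem norm_tria (n : ℤ) : ‖tria n‖ = 1 := by
  unfold tria
  split_ifs
  · simp
  · exact norm_om

theorem triE_zero (n : ℤ) (t : ℝ) :
    triE n 0 t = e ((n / 3 : ℝ) * (eps (1 - n) * (1 - t) + eps (2 - n) * t)) := rfl

theorem triE_one (n : ℤ) (t : ℝ) :
    triE n 1 t = e ((n / 3 : ℝ) * (eps (2 - n) * (1 - t) + eps (0 - n) * t)) := rfl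

theorem triE_two (n : ℤ) (t : ℝ) :
    triE n 2 t = e ((n / 3 : ℝ) * (eps (0 - n) * (1 - t) + eps (1 - n) * t)) := rfl

theorem eps_zero {m : ℤ} (h : m % 3 = 0) : eps m = 0 := by simp [eps, h]

theorem eps_one {m : ℤ} (h : m % 3 = 1) : eps m = 1 := by simp [eps, h]

theorem eps_two {m : ℤ} (h : m % 3 = 2) : eps m = -1 := by simp [eps, h]

theorem triE_cases (n : ℤ) (x : ℝ) :
    (n % 3 = 0 ∧ triE n 0 x = e (n / 3 * (-2 * x)) ∧ triE n 1 x = e (n / 3 * x)
      ∧ triE n 2 x = e (n / 3 * x)) ∨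
    (n % 3 = 1 ∧ triE n 0 x = e (n / 3 * x) ∧ triE n 1 x = om * e (n / 3 * (-2 * x))
      ∧ triE n 2 x = om ^ 2 * e (n / 3 * x)) ∨
    (n % 3 = 2 ∧ triE n 0 x = om * e (n / 3 * x) ∧ triE n 1 x = e (n / 3 * x)
      ∧ triE n 2 x = om ^ 2 * e (n / 3 * (-2 * x))) := by
  have hZ := e_int_div_three n
  have hZ' : e (-((n : ℝ) / 3)) = conj (om ^ (n % 3).toNat) := by
    rw [← hZ, conj_e]
  have h3 : n % 3 = 0 ∨ n % 3 = 1 ∨ n % 3 = 2 := by omega
  rcases h3 with h | h | h
  · left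
    rw [h] at hZ hZ'
    norm_num at hZ hZ'
    refine ⟨h, ?_, ?_, ?_⟩
    · rw [triE_zero, eps_one (m := 1 - n) (by omega), eps_two (m := 2 - n) (by omega)]
      rw [show (n / 3 : ℝ) * (1 * (1 - x) + -1 * x) = n / 3 + n / 3 * (-2 * x) by ring, e_add,
        hZ, one_mul]
    · rw [triE_one, eps_two (m := 2 - n) (by omega), eps_zero (m := 0 - n) (by omega)]
      rw [show (n / 3 : ℝ) * (-1 * (1 - x) + 0 * x) = -(n / 3) + n / 3 * x by ring, e_add,
        hZ', one_mul]
    · rw [triE_two, eps_zero (m := 0 - n) (by omega), eps_one (m := 1 - n) (by omega)]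
      congr 1
      ring
  · right; left
    rw [h] at hZ hZ'
    norm_num at hZ hZ'
    refine ⟨h, ?_, ?_, ?_⟩
    · rw [triE_zero, eps_zero (m := 1 - n) (by omega), eps_one (m := 2 - n) (by omega)]
      congr 1
      ring
    · rw [triE_one, eps_one (m := 2 - n) (by omega), eps_two (m := 0 - n) (by omega)]
      rw [show (n / 3 : ℝ) * (1 * (1 - x) + -1 * x) = n / 3 + n / 3 * (-2 * x) by ring, e_add,
        hZ]
    · rw [triE_two, eps_two (m := 0 - n) (by omega), eps_zero (m := 1 - n) (by omega)]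
      rw [show (n / 3 : ℝ) * (-1 * (1 - x) + 0 * x) = -(n / 3) + n / 3 * x by ring, e_add,
        hZ', conj_om]
  · right; right
    rw [h] at hZ hZ'
    rw [show (2 : ℤ).toNat = 2 from rfl] at hZ hZ'
    rw [conj_om_sq] at hZ'
    refine ⟨h, ?_, ?_, ?_⟩
    · rw [triE_zero, eps_two (m := 1 - n) (by omega), eps_zero (m := 2 - n) (by omega)]
      rw [show (n / 3 : ℝ) * (-1 * (1 - x) + 0 * x) = -(n / 3) + n / 3 * x by ring, e_add,
        hZ']
    · rw [triE_one, eps_zero (m := 2 - n) (by omega), eps_one (m := 0 - n) (by omega)]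
      congr 1
      ring
    · rw [triE_two, eps_one (m := 0 - n) (by omega), eps_two (m := 1 - n) (by omega)]
      rw [show (n / 3 : ℝ) * (1 * (1 - x) + -1 * x) = n / 3 + n / 3 * (-2 * x) by ring, e_add,
        hZ]

theorem triE_dft_zero (n : ℤ) (x : ℝ) :
    triE n 0 x + om * triE n 1 x + om * triE n 2 x
      = tria n * (2 * e (n / 3 * x) + om ^ 2 * e (n / 3 * (-2 * x))) := by
  have h3 := om_pow_three
  rcases triE_cases n x with ⟨h, h0, h1, h2⟩ | ⟨h, h0, h1, h2⟩ | ⟨h, h0, h1, h2⟩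
  · rw [h0, h1, h2, tria, if_neg (by omega)]
    linear_combination -e (n / 3 * (-2 * x)) * h3
  · rw [h0, h1, h2, tria, if_pos h]
    linear_combination e (n / 3 * x) * h3
  · rw [h0, h1, h2, tria, if_neg (by omega)]
    ring

theorem e_shift_one (n : ℤ) (x : ℝ) :
    e (n / 3 * (x + 1)) = om ^ (n % 3).toNat * e (n / 3 * x) := by
  rw [← e_int_div_three, ← e_add]
  congr 1
  ring

theorem e_shift_two (n : ℤ) (x : ℝ) :
    e (n / 3 * (x + 2)) = (om ^ (n % 3).toNat) ^ 2 * e (n / 3 * x) := by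
  rw [← e_int_div_three, pow_two, ← e_add, ← e_add]
  congr 1
  ring

theorem e_shift_one' (n : ℤ) (x : ℝ) :
    e (n / 3 * (-2 * (x + 1))) = (conj (om ^ (n % 3).toNat)) ^ 2 * e (n / 3 * (-2 * x)) := by
  rw [← e_int_div_three, conj_e, pow_two, ← e_add, ← e_add]
  congr 1
  ring

theorem e_shift_two' (n : ℤ) (x : ℝ) :
    e (n / 3 * (-2 * (x + 2))) = (conj (om ^ (n % 3).toNat)) ^ 4 * e (n / 3 * (-2 * x)) := by
  rw [← e_int_div_three, conj_e, show (4 : ℕ) = 2 + 2 from rfl, pow_add, pow_two, ← e_add,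
    ← e_add, ← e_add]
  congr 1
  ring

theorem triE_dft_two (n : ℤ) (x : ℝ) :
    triE n 0 x + om ^ 2 * triE n 1 x + triE n 2 x
      = tria n * (-e (n / 3 * (x + 1)) + om ^ 2 * e (n / 3 * (-2 * (x + 1)))) := by
  have h3 := om_pow_three
  have hs := om_sum
  rw [e_shift_one, e_shift_one']
  rcases triE_cases n x with ⟨h, h0, h1, h2⟩ | ⟨h, h0, h1, h2⟩ | ⟨h, h0, h1, h2⟩
  · rw [h0, h1, h2, tria, if_neg (by omega), h]
    simp only [Int.toNat_zero, pow_zero, map_one]
    linear_combination e (n / 3 * x) * hs - e (n / 3 * (-2 * x)) * h3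
  · rw [h0, h1, h2, tria, if_pos h, h]
    simp only [Int.toNat_one, pow_one, conj_om]
    linear_combination e (n / 3 * x) * hs - om ^ 3 * e (n / 3 * (-2 * x)) * h3
  · rw [h0, h1, h2, tria, if_neg (by omega), h, show (2 : ℤ).toNat = 2 from rfl, conj_om_sq]
    linear_combination e (n / 3 * x) * (om * hs) - (e (n / 3 * (-2 * x)) * om ^ 2) * h3

theorem triE_dft_one (n : ℤ) (x : ℝ) :
    triE n 0 x + triE n 1 x + om ^ 2 * triE n 2 x
      = tria n * (-e (n / 3 * (x + 2)) + om ^ 2 * e (n / 3 * (-2 * (x + 2)))) := by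
  have h3 := om_pow_three
  have hs := om_sum
  rw [e_shift_two, e_shift_two']
  rcases triE_cases n x with ⟨h, h0, h1, h2⟩ | ⟨h, h0, h1, h2⟩ | ⟨h, h0, h1, h2⟩
  · rw [h0, h1, h2, tria, if_neg (by omega), h]
    simp only [Int.toNat_zero, pow_zero, map_one, one_pow]
    linear_combination e (n / 3 * x) * hs - e (n / 3 * (-2 * x)) * h3
  · rw [h0, h1, h2, tria, if_pos h, h]
    simp only [Int.toNat_one, pow_one, conj_om]
    linear_combination e (n / 3 * x) * (1 - om + om ^ 2) * hs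
      - om * (om ^ 6 + om ^ 3 + 1) * e (n / 3 * (-2 * x)) * h3
  · rw [h0, h1, h2, tria, if_neg (by omega), h, show (2 : ℤ).toNat = 2 from rfl, conj_om_sq]
    linear_combination e (n / 3 * x) * (om ^ 3 - om ^ 2 + 1) * hs
      - om ^ 4 * e (n / 3 * (-2 * x)) * h3

end Pool.Agent.Work.MP_9e9244_an
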