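import Pool.Agent.Work.MP_9e9244_an.TriAlg

open MeasureTheory Set
open scoped ENNReal ComplexConjugate

namespace Pool.Agent.Work.MP_9e9244_an

theorem norm_add_sq_lower (a b : ℂ) : (1 / 8) * ‖a‖ ^ 2 - (1 / 7) * ‖b‖ ^ 2 ≤ ‖a + b‖ ^ 2 := by
  have h1 : ‖a‖ ≤ ‖a + b‖ + ‖b‖ := by
    have := norm_sub_le (a + b) b
    simpa using this
  have h2 := norm_nonneg a
  have h3 := norm_nonneg b
  have h4 := norm_nonneg (a + b)
  have h5 : ‖a‖ ^ 2 ≤ (‖a + b‖ + ‖b‖) ^ 2 := pow_le_pow_left₀ h2 h1 2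
  nlinarith [sq_nonneg (7 * ‖a + b‖ - ‖b‖)]

theorem norm_add_sq_upper (a b : ℂ) : ‖a + b‖ ^ 2 ≤ 2 * ‖a‖ ^ 2 + 2 * ‖b‖ ^ 2 := by
  have h1 := norm_add_le a b
  have h2 := norm_nonneg a
  have h3 := norm_nonneg b
  have h4 := norm_nonneg (a + b)
  nlinarith [sq_nonneg (‖a‖ - ‖b‖)]

section periodic

variable {φ : ℝ → ℝ}

theorem integral_shift (hφ : Function.Periodic φ 3) (a b : ℝ) :
    ∫ x in (a - 3)..(b - 3), φ x = ∫ x in a..b, φ x := by
  have h := intervalIntegral.integral_comp_sub_right (a := a) (b := b) φ 3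
  rw [← h]
  refine intervalIntegral.integral_congr fun x _ => ?_
  have := hφ (x - 3)
  simpa using this.symm

theorem integral_neg_two_zero_one (hφ : Function.Periodic φ 3) :
    ∫ x in (0:ℝ)..1, φ (-2 * x) = 1 / 2 * ∫ x in (1:ℝ)..3, φ x := by
  rw [intervalIntegral.integral_comp_mul_left φ (by norm_num)]
  rw [intervalIntegral.integral_symm, smul_eq_mul]
  have := integral_shift hφ 1 3
  norm_num at this ⊢
  rw [this]

theorem integral_neg_two_one_three (hφ : Function.Periodic φ 3) (hc : Continuous φ) :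
    ∫ x in (1:ℝ)..3, φ (-2 * x) =
      (∫ x in (0:ℝ)..1, φ x) + 1 / 2 * ∫ x in (1:ℝ)..3, φ x := by
  rw [intervalIntegral.integral_comp_mul_left φ (by norm_num)]
  rw [intervalIntegral.integral_symm, smul_eq_mul]
  have h1 := integral_shift hφ 0 3
  have h1' := integral_shift hφ (-3) 0
  have h2 := integral_shift hφ 0 1
  have h3 : ∫ x in (-6:ℝ)..(-2), φ x = (∫ x in (-6:ℝ)..(-3), φ x) + ∫ x in (-3:ℝ)..(-2), φ x :=
    (intervalIntegral.integral_add_adjacent_intervals (hc.intervalIntegrable _ _)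
      (hc.intervalIntegrable _ _)).symm
  have h4 : ∫ x in (0:ℝ)..3, φ x = (∫ x in (0:ℝ)..1, φ x) + ∫ x in (1:ℝ)..3, φ x :=
    (intervalIntegral.integral_add_adjacent_intervals (hc.intervalIntegrable _ _)
      (hc.intervalIntegrable _ _)).symm
  norm_num at h1 h1' h2 ⊢
  rw [h3, h1', h1, h2, h4]
  ring

end periodic

section poly

variable (s : Finset ℤ) (c : ℤ → ℂ)

/-- The auxiliary `3`-periodic trigonometric polynomial. -/
noncomputable def Phi (y : ℝ) : ℂ := ∑ n ∈ s, (c n * tria n) * e (n / 3 * y)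

theorem continuous_Phi : Continuous (Phi s c) := by
  unfold Phi
  fun_prop

theorem periodic_Phi : Function.Periodic (fun y => ‖Phi s c y‖ ^ 2) 3 := by
  intro y
  have h : Phi s c (y + 3) = Phi s c y := by
    unfold Phi
    refine Finset.sum_congr rfl fun n _ => ?_
    have : (n / 3 * (y + 3) : ℝ) = n / 3 * y + ((n : ℤ) : ℝ) := by ring
    rw [this, e_add, e_int, mul_one]
  simp only [h]

theorem integral_Phi :
    (∫ x in (0:ℝ)..1, ‖Phi s c x‖ ^ 2) + ∫ x in (1:ℝ)..3, ‖Phi s c x‖ ^ 2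
      = 3 * ∑ n ∈ s, ‖c n‖ ^ 2 := by
  have hc : Continuous fun x => ‖Phi s c x‖ ^ 2 := (continuous_Phi s c).norm.pow 2
  rw [intervalIntegral.integral_add_adjacent_intervals (hc.intervalIntegrable _ _)
    (hc.intervalIntegrable _ _)]
  unfold Phi
  rw [parseval_finset 3 (by norm_num)]
  simp only [norm_mul, norm_tria, mul_one]

theorem dft_zero (x : ℝ) :
    (∑ n ∈ s, c n * triE n 0 x) + om * (∑ n ∈ s, c n * triE n 1 x)
      + om * (∑ n ∈ s, c n * triE n 2 x) = 2 * Phi s c x + om ^ 2 * Phi s c (-2 * x) := by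
  unfold Phi
  simp only [Finset.mul_sum, ← Finset.sum_add_distrib]
  refine Finset.sum_congr rfl fun n _ => ?_
  linear_combination c n * triE_dft_zero n x

theorem dft_one (x : ℝ) :
    (∑ n ∈ s, c n * triE n 0 x) + (∑ n ∈ s, c n * triE n 1 x)
      + om ^ 2 * (∑ n ∈ s, c n * triE n 2 x)
      = -Phi s c (x + 2) + om ^ 2 * Phi s c (-2 * (x + 2)) := by
  unfold Phi
  simp only [Finset.mul_sum, ← Finset.sum_add_distrib, ← Finset.sum_neg_distrib]
  refine Finset.sum_congr rfl fun n _ => ?_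
  linear_combination c n * triE_dft_one n x

theorem dft_two (x : ℝ) :
    (∑ n ∈ s, c n * triE n 0 x) + om ^ 2 * (∑ n ∈ s, c n * triE n 1 x)
      + (∑ n ∈ s, c n * triE n 2 x)
      = -Phi s c (x + 1) + om ^ 2 * Phi s c (-2 * (x + 1)) := by
  unfold Phi
  simp only [Finset.mul_sum, ← Finset.sum_add_distrib, ← Finset.sum_neg_distrib]
  refine Finset.sum_congr rfl fun n _ => ?_
  linear_combination c n * triE_dft_two n x

theorem sum_edges :
    3 * ∑ i : Fin 3, ∫ t in (0:ℝ)..1, ‖∑ n ∈ s, c n * triE n i t‖ ^ 2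
      = (∫ x in (0:ℝ)..1, ‖2 * Phi s c x + om ^ 2 * Phi s c (-2 * x)‖ ^ 2)
        + ∫ x in (1:ℝ)..3, ‖-Phi s c x + om ^ 2 * Phi s c (-2 * x)‖ ^ 2 := by
  have hP := continuous_Phi s c
  have hE : ∀ i, Continuous fun t => ∑ n ∈ s, c n * triE n i t := by
    intro i
    unfold triE
    fun_prop
  have hc : Continuous fun x => ‖-Phi s c x + om ^ 2 * Phi s c (-2 * x)‖ ^ 2 := by fun_prop
  have hE2 : ∀ i, IntervalIntegrable (fun t => ‖∑ n ∈ s, c n * triE n i t‖ ^ 2) volume 0 1 :=
    fun i => ((hE i).norm.pow 2).intervalIntegrable _ _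
  rw [Fin.sum_univ_three, ← intervalIntegral.integral_add (hE2 0) (hE2 1),
    ← intervalIntegral.integral_add ((hE2 0).add (hE2 1)) (hE2 2),
    ← intervalIntegral.integral_const_mul]
  have h1 : ∫ x in (0:ℝ)..1, ‖-Phi s c (x + 1) + om ^ 2 * Phi s c (-2 * (x + 1))‖ ^ 2
      = ∫ x in (1:ℝ)..2, ‖-Phi s c x + om ^ 2 * Phi s c (-2 * x)‖ ^ 2 := by
    have := intervalIntegral.integral_comp_add_right (a := 0) (b := 1)
      (fun x => ‖-Phi s c x + om ^ 2 * Phi s c (-2 * x)‖ ^ 2) 1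
    rw [this]
    norm_num
  have h2 : ∫ x in (0:ℝ)..1, ‖-Phi s c (x + 2) + om ^ 2 * Phi s c (-2 * (x + 2))‖ ^ 2
      = ∫ x in (2:ℝ)..3, ‖-Phi s c x + om ^ 2 * Phi s c (-2 * x)‖ ^ 2 := by
    have := intervalIntegral.integral_comp_add_right (a := 0) (b := 1)
      (fun x => ‖-Phi s c x + om ^ 2 * Phi s c (-2 * x)‖ ^ 2) 2
    rw [this]
    norm_num
  rw [← intervalIntegral.integral_add_adjacent_intervals (b := 2) (hc.intervalIntegrable _ _)
    (hc.intervalIntegrable _ _), ← h1, ← h2, ← intervalIntegral.integral_add,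
    ← intervalIntegral.integral_add]
  · refine intervalIntegral.integral_congr fun x _ => ?_
    have := dft_norm (∑ n ∈ s, c n * triE n 0 x) (∑ n ∈ s, c n * triE n 1 x)
      (∑ n ∈ s, c n * triE n 2 x)
    rw [dft_zero, dft_one, dft_two] at this
    linarith
  · apply Continuous.intervalIntegrable
    fun_prop
  · apply Continuous.intervalIntegrable
    fun_prop
  · apply Continuous.intervalIntegrable
    fun_prop
  · apply Continuous.intervalIntegrable
    fun_prop

theorem tri_lower :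
    (1 / 56) * ∑ n ∈ s, ‖c n‖ ^ 2 ≤
      ∑ i : Fin 3, ∫ t in (0:ℝ)..1, ‖∑ n ∈ s, c n * triE n i t‖ ^ 2 := by
  have hP := continuous_Phi s c
  have hper := periodic_Phi s c
  have hcφ : Continuous fun x => ‖Phi s c x‖ ^ 2 := by fun_prop
  have hs := sum_edges s c
  have hI := integral_Phi s c
  have h01 := integral_neg_two_zero_one hper
  have h13 := integral_neg_two_one_three hper hcφ
  have hb1 : ∫ x in (0:ℝ)..1, ((1 / 2) * ‖Phi s c x‖ ^ 2 - (1 / 7) * ‖Phi s c (-2 * x)‖ ^ 2)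
      ≤ ∫ x in (0:ℝ)..1, ‖2 * Phi s c x + om ^ 2 * Phi s c (-2 * x)‖ ^ 2 := by
    apply intervalIntegral.integral_mono_on zero_le_one
    · apply Continuous.intervalIntegrable
      fun_prop
    · apply Continuous.intervalIntegrable
      fun_prop
    · intro x _
      have h := norm_add_sq_lower (2 * Phi s c x) (om ^ 2 * Phi s c (-2 * x))
      rw [norm_mul, norm_mul, norm_pow, norm_om] at h
      norm_num at h ⊢
      nlinarith
  have hb2 : ∫ x in (1:ℝ)..3, ((1 / 8) * ‖Phi s c x‖ ^ 2 - (1 / 7) * ‖Phi s c (-2 * x)‖ ^ 2)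
      ≤ ∫ x in (1:ℝ)..3, ‖-Phi s c x + om ^ 2 * Phi s c (-2 * x)‖ ^ 2 := by
    apply intervalIntegral.integral_mono_on (by norm_num)
    · apply Continuous.intervalIntegrable
      fun_prop
    · apply Continuous.intervalIntegrable
      fun_prop
    · intro x _
      have h := norm_add_sq_lower (-Phi s c x) (om ^ 2 * Phi s c (-2 * x))
      rw [norm_neg, norm_mul, norm_pow, norm_om] at h
      norm_num at h ⊢
      nlinarith
  have hii : ∀ a b : ℝ, IntervalIntegrable (fun x => ‖Phi s c x‖ ^ 2) volume a b :=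
    fun a b => hcφ.intervalIntegrable _ _
  have hii2 : ∀ a b : ℝ, IntervalIntegrable (fun x => ‖Phi s c (-2 * x)‖ ^ 2) volume a b := by
    intro a b
    apply Continuous.intervalIntegrable
    fun_prop
  rw [intervalIntegral.integral_sub ((hii _ _).const_mul _) ((hii2 _ _).const_mul _),
    intervalIntegral.integral_const_mul, intervalIntegral.integral_const_mul, h01] at hb1
  rw [intervalIntegral.integral_sub ((hii _ _).const_mul _) ((hii2 _ _).const_mul _),
    intervalIntegral.integral_const_mul, intervalIntegral.integral_const_mul, h13] at hb2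
  have hn0 : 0 ≤ ∫ x in (0:ℝ)..1, ‖2 * Phi s c x + om ^ 2 * Phi s c (-2 * x)‖ ^ 2 :=
    intervalIntegral.integral_nonneg zero_le_one fun _ _ => by positivity
  have hA0 : 0 ≤ ∫ x in (0:ℝ)..1, ‖Phi s c x‖ ^ 2 :=
    intervalIntegral.integral_nonneg zero_le_one fun _ _ => by positivity
  have hA1 : 0 ≤ ∫ x in (1:ℝ)..3, ‖Phi s c x‖ ^ 2 :=
    intervalIntegral.integral_nonneg (by norm_num) fun _ _ => by positivity
  nlinarith

theorem tri_upper :
    ∑ i : Fin 3, ∫ t in (0:ℝ)..1, ‖∑ n ∈ s, c n * triE n i t‖ ^ 2 ≤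
      10 * ∑ n ∈ s, ‖c n‖ ^ 2 := by
  have hP := continuous_Phi s c
  have hper := periodic_Phi s c
  have hcφ : Continuous fun x => ‖Phi s c x‖ ^ 2 := by fun_prop
  have hs := sum_edges s c
  have hI := integral_Phi s c
  have h01 := integral_neg_two_zero_one hper
  have h13 := integral_neg_two_one_three hper hcφ
  have hb1 : ∫ x in (0:ℝ)..1, ‖2 * Phi s c x + om ^ 2 * Phi s c (-2 * x)‖ ^ 2 ≤
      ∫ x in (0:ℝ)..1, (8 * ‖Phi s c x‖ ^ 2 + 2 * ‖Phi s c (-2 * x)‖ ^ 2) := by
    apply intervalIntegral.integral_mono_on zero_le_one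
    · apply Continuous.intervalIntegrable
      fun_prop
    · apply Continuous.intervalIntegrable
      fun_prop
    · intro x _
      have h := norm_add_sq_upper (2 * Phi s c x) (om ^ 2 * Phi s c (-2 * x))
      rw [norm_mul 2, norm_mul (om ^ 2), norm_pow om, norm_om] at h
      norm_num at h ⊢
      nlinarith
  have hb2 : ∫ x in (1:ℝ)..3, ‖-Phi s c x + om ^ 2 * Phi s c (-2 * x)‖ ^ 2 ≤
      ∫ x in (1:ℝ)..3, (2 * ‖Phi s c x‖ ^ 2 + 2 * ‖Phi s c (-2 * x)‖ ^ 2) := by
    apply intervalIntegral.integral_mono_on (by norm_num)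
    · apply Continuous.intervalIntegrable
      fun_prop
    · apply Continuous.intervalIntegrable
      fun_prop
    · intro x _
      have h := norm_add_sq_upper (-Phi s c x) (om ^ 2 * Phi s c (-2 * x))
      rw [norm_neg, norm_mul (om ^ 2), norm_pow om, norm_om] at h
      norm_num at h ⊢
      nlinarith
  have hii : ∀ a b : ℝ, IntervalIntegrable (fun x => ‖Phi s c x‖ ^ 2) volume a b :=
    fun a b => hcφ.intervalIntegrable _ _
  have hii2 : ∀ a b : ℝ, IntervalIntegrable (fun x => ‖Phi s c (-2 * x)‖ ^ 2) volume a b := by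
    intro a b
    apply Continuous.intervalIntegrable
    fun_prop
  rw [intervalIntegral.integral_add ((hii _ _).const_mul _) ((hii2 _ _).const_mul _),
    intervalIntegral.integral_const_mul, intervalIntegral.integral_const_mul, h01] at hb1
  rw [intervalIntegral.integral_add ((hii _ _).const_mul _) ((hii2 _ _).const_mul _),
    intervalIntegral.integral_const_mul, intervalIntegral.integral_const_mul, h13] at hb2
  have hA0 : 0 ≤ ∫ x in (0:ℝ)..1, ‖Phi s c x‖ ^ 2 :=
    intervalIntegral.integral_nonneg zero_le_one fun _ _ => by positivity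
  have hA1 : 0 ≤ ∫ x in (1:ℝ)..3, ‖Phi s c x‖ ^ 2 :=
    intervalIntegral.integral_nonneg (by norm_num) fun _ _ => by positivity
  nlinarith

end poly

end Pool.Agent.Work.MP_9e9244_an
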