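import Pool.Agent.Work.MP_9e9244_an.Geometry

open MeasureTheory Set
open scoped ENNReal ComplexConjugate

namespace Pool.Agent.Work.MP_9e9244_an

theorem exists_bounds {ι : Type} [Fintype ι] (w : ι → ℝ) (hw : ∀ i, 0 < w i) :
    ∃ a b : ℝ, 0 < a ∧ (∀ i, a ≤ w i) ∧ ∀ i, w i ≤ b := by
  classical
  by_cases h : Nonempty ι
  · obtain ⟨i0, -, hi0⟩ := Finset.exists_min_image Finset.univ w Finset.univ_nonempty
    obtain ⟨i1, -, hi1⟩ := Finset.exists_max_image Finset.univ w Finset.univ_nonempty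
    exact ⟨w i0, w i1, hw i0, fun i => hi0 i (Finset.mem_univ i), fun i => hi1 i (Finset.mem_univ i)⟩
  · exact ⟨1, 1, one_pos, fun i => absurd ⟨i⟩ h, fun i => absurd ⟨i⟩ h⟩

/-- The criterion for the boundary length measure of a polygon. -/
theorem polygon_criterion {ι J : Type} [Fintype ι] [Countable J] (S : Set Plane)
    (A B : ι → Plane) (hne : ∀ i, A i ≠ B i) (hS : frontier S = ⋃ i, segment ℝ (A i) (B i))
    (hsub : ∀ i j, i ≠ j → (segment ℝ (A i) (B i) ∩ segment ℝ (A j) (B j)).Subsingleton)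
    (lam : J → Plane) (θ : J → ℂ) (hθ : ∀ j, ‖θ j‖ = 1) (E : J → ι → ℝ → ℂ)
    (hE : ∀ j i t, expo (lam j) (arc (A i) (B i) t) = θ j * E j i t)
    (C1 C2 : ℝ) (hC1 : 0 < C1)
    (hlow : ∀ (s : Finset J) (c : J → ℂ), C1 * ∑ j ∈ s, ‖c j‖ ^ 2 ≤
      ∑ i, ∫ t in (0:ℝ)..1, ‖∑ j ∈ s, c j * E j i t‖ ^ 2)
    (hup : ∀ (s : Finset J) (c : J → ℂ), ∑ i, ∫ t in (0:ℝ)..1, ‖∑ j ∈ s, c j * E j i t‖ ^ 2 ≤
      C2 * ∑ j ∈ s, ‖c j‖ ^ 2)
    (hcomp : ∀ f : ι → ℝ → ℂ, (∀ i, MemLp (f i) 2 (volume.restrict (Ioc (0:ℝ) 1))) →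
      (∀ j, ∑ i, ∫ t in (0:ℝ)..1, f i t * conj (E j i t) = 0) →
      ∀ i, ∀ᵐ t ∂(volume.restrict (Ioc (0:ℝ) 1)), f i t = 0) :
    IsExpRieszBasis (boundaryLength S) (range lam) := by
  have hμ := boundaryLength_eq S A B hne hS hsub
  have hfin := isFiniteMeasure_curveMeasure (fun i => arc (A i) (B i)) (fun i => dist (A i) (B i))
  obtain ⟨a, b, ha, hwa, hwb⟩ := exists_bounds (fun i => dist (A i) (B i))
    (fun i => dist_pos.2 (hne i))
  have key := criterion (γ := fun i => arc (A i) (B i)) (w := fun i => dist (A i) (B i))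
    (fun i => continuous_arc _ _) a b ha hwa hwb lam θ hθ E hE C1 C2 hC1 hlow hup hcomp
  rw [hμ]
  exact key

end Pool.Agent.Work.MP_9e9244_an
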